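import Pool.Agent.Zk6.HM.G

set_option autoImplicit false

/-!
# Products of given members with sums of Hecke characters and Tate twists
-/

open NumberField Complex Filter Topology Set Ideal
open scoped ComplexConjugate

namespace Pool.Agent.Zk6.HM

open Pool.Agent.N784.HC (IsHecke CTyp)
open Pool.Agent.Zk2.HW (IsHW)

/-- **Members.** Products of `n` given functions of the class (with `μ ≤ B₀`), of `t` Tate twists and of `m` Hecke
L-functions; the bound `B` for the parameters depends only on `B₀` and on the infinity types. -/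
theorem members_gen {n m : ℕ} (B₀ : ℝ) (K : Fin m → Type) [∀ j, Field (K j)] [∀ j, NumberField (K j)]
    (ν : ∀ j, (K j →+* ℂ) → ℕ) (hν : ∀ j, CTyp (ν j)) (t : ℕ) (hpos : 1 ≤ n + t + m) :
    ∃ B : ℝ, B₀ ≤ B ∧ ∀ (i : ℕ) (D r : Fin n → ℕ) (Q : Fin n → ℝ) (P : Fin n → ℕ → Polynomial ℂ) (Λ : Fin n → ℂ → ℂ),
      (∀ j, ∃ μ : Fin (D j) → ℝ, (∀ k, μ k ≤ B₀) ∧ IsHW i 1 (r j) (Q j) μ (P j) (Λ j)) →
      ∀ (𝔣 : ∀ j, Ideal (𝓞 (K j))) (ψ : ∀ j, Ideal (𝓞 (K j)) →*₀ ℂ),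
      (∀ j, 𝔣 j ≠ ⊤ ∧ IsHecke (K j) (𝔣 j) (ν j) (ψ j)) →
      ∃ (μ : Fin (∑ j, D j + (t + ∑ j, Module.finrank ℚ (K j))) → ℝ) (Λ' : ℂ → ℂ), (∀ j, μ j ≤ B) ∧
        IsHW i 1 (∑ j, r j + t)
          ((∏ j, Q j) * ∏ j, ((Ideal.absNorm (𝔣 j) * Ideal.absNorm (differentIdeal ℤ (𝓞 (K j))) : ℕ) : ℝ)) μ
          (fun p => (∏ j, P j p) *
            ((1 - Polynomial.C ((p : ℂ) ^ ((i : ℂ) / 2)) * Polynomial.X) ^ t * ∏ j, lp i (ψ j) p)) Λ' := by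
  classical
  rcases Nat.eq_zero_or_pos (t + m) with h0 | h0
  · obtain ⟨rfl, rfl⟩ : t = 0 ∧ m = 0 := by omega
    refine ⟨B₀, le_rfl, fun i D r Q P Λ h 𝔣 ψ _ => ?_⟩
    obtain ⟨μ, h1, h2⟩ := prod_HW' i B₀ n (by omega) D r Q P Λ h
    obtain ⟨μ', h3, h4⟩ := cast_HW h2 h1 (D' := ∑ j, D j + (0 + ∑ j, Module.finrank ℚ (K j))) (by simp)
    refine ⟨μ', fun s => ∏ j, Λ j s, h3, ?_⟩
    have e2 : (∏ j, Q j) * ∏ j, ((Ideal.absNorm (𝔣 j) * Ideal.absNorm (differentIdeal ℤ (𝓞 (K j))) : ℕ) : ℝ) =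
        ∏ j, Q j := by
      rw [Fin.prod_univ_zero, mul_one]
    have e3 : (fun p : ℕ => (∏ j, P j p) *
        ((1 - Polynomial.C ((p : ℂ) ^ ((i : ℂ) / 2)) * Polynomial.X) ^ 0 * ∏ j, lp i (ψ j) p)) =
        fun p : ℕ => ∏ j, P j p := by
      funext p
      rw [Fin.prod_univ_zero, pow_zero, mul_one, mul_one]
    rw [e2, e3, add_zero]
    exact h4
  · obtain ⟨B1, hB1⟩ := sums_HW K ν hν t h0
    refine ⟨max B₀ B1, le_max_left _ _, fun i D r Q P Λ h 𝔣 ψ hψ => ?_⟩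
    obtain ⟨μ1, Λ1, h1, h2⟩ := hB1 𝔣 ψ hψ i
    rcases Nat.eq_zero_or_pos n with hn | hn
    · subst hn
      obtain ⟨μ', h3, h4⟩ := cast_HW h2 (B := max B₀ B1) (fun j => (h1 j).trans (le_max_right _ _))
        (D' := ∑ j, D j + (t + ∑ j, Module.finrank ℚ (K j))) (by simp)
      refine ⟨μ', Λ1, h3, ?_⟩
      have e1 : ∑ j, r j + t = t := by rw [Fin.sum_univ_zero, zero_add]
      have e2 : (∏ j, Q j) * ∏ j, ((Ideal.absNorm (𝔣 j) * Ideal.absNorm (differentIdeal ℤ (𝓞 (K j))) : ℕ) : ℝ) =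
          ∏ j, ((Ideal.absNorm (𝔣 j) * Ideal.absNorm (differentIdeal ℤ (𝓞 (K j))) : ℕ) : ℝ) := by
        rw [Fin.prod_univ_zero, one_mul]
      have e3 : (fun p : ℕ => (∏ j, P j p) *
          ((1 - Polynomial.C ((p : ℂ) ^ ((i : ℂ) / 2)) * Polynomial.X) ^ t * ∏ j, lp i (ψ j) p)) =
          fun p : ℕ => ((1 - Polynomial.C ((p : ℂ) ^ ((i : ℂ) / 2)) * Polynomial.X) ^ t * ∏ j, lp i (ψ j) p) := by
        funext p
        rw [Fin.prod_univ_zero, one_mul]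
      rw [e1, e2, e3]
      exact h4
    · obtain ⟨μ2, h3, h4⟩ := prod_HW' i B₀ n hn D r Q P Λ h
      refine ⟨Fin.append μ2 μ1, _, fun j => ?_, h4.mul h2⟩
      refine Fin.addCases (fun j => ?_) (fun j => ?_) j
      · rw [Fin.append_left]
        exact (h3 j).trans (le_max_left _ _)
      · rw [Fin.append_right]
        exact (h1 j).trans (le_max_right _ _)

end Pool.Agent.Zk6.HM
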