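import Pool.Agent.N784.HC.Def

set_option autoImplicit false

/-!
# Completed Hecke L-functions: the entire function of finite order
-/

namespace Pool.Agent.Zk6.HM

open Filter Topology Complex
open Pool.Agent.N784.HC (FEm GGm)
open scoped ComplexConjugate

section glue

variable {ι : Type} [Fintype ι] {R : ℝ} {μ : ι → ℝ} {F : ℂ → ℂ}

theorem gr_diff {s : ℂ} {x : ℝ} (hx : 0 ≤ x) (hs : s.im ≠ 0 ∨ 0 < s.re) :
    DifferentiableAt ℂ (fun z : ℂ => Gammaℝ (z + x)) s := by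
  have hpi : ((Real.pi : ℝ) : ℂ) ≠ 0 := by exact_mod_cast Real.pi_ne_zero
  unfold Gammaℝ
  refine DifferentiableAt.mul ?_ ?_
  · exact DifferentiableAt.const_cpow (by fun_prop) (Or.inl hpi)
  · refine DifferentiableAt.comp s (f := fun z : ℂ => (z + x) / 2)
      (Complex.differentiableAt_Gamma _ ?_) (by fun_prop)
    intro m hm
    have hm2 : s + x = -(2 * (m : ℂ)) := by
      have : s + x = 2 * ((s + x) / 2) := by ring
      rw [this, hm]
      ring
    rcases hs with hs | hs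
    · have h1 := congrArg Complex.im hm2
      simp at h1
      exact hs h1
    · have h1 := congrArg Complex.re hm2
      simp at h1
      have hm0 : (0 : ℝ) ≤ m := Nat.cast_nonneg m
      linarith

theorem GGm_diff (hR : 0 < R) (hμ : ∀ i, 0 ≤ μ i) {s : ℂ} (hs : s.im ≠ 0 ∨ 0 < s.re) :
    DifferentiableAt ℂ (GGm R μ) s := by
  have hc : ((R : ℝ) : ℂ) ≠ 0 := by exact_mod_cast hR.ne'
  unfold GGm
  refine DifferentiableAt.mul ?_ ?_
  · exact DifferentiableAt.const_cpow (by fun_prop) (Or.inl hc)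
  · refine DifferentiableAt.fun_finsetProd fun i _ => ?_
    exact gr_diff (hμ i) hs

/-- The completed function is entire. -/
theorem exists_entire (hR : 0 < R) (hμ : ∀ i, 0 ≤ μ i) (hF : FEm R μ F) :
    ∃ (Λ : ℂ → ℂ) (w : ℂ), ‖w‖ = 1 ∧ Differentiable ℂ Λ ∧ (∀ s, Λ s = w * conj (Λ (1 - conj s))) ∧
      (∀ s : ℂ, (s.im ≠ 0 ∨ 0 < s.re) → Λ s = GGm R μ s * F s) ∧
      (∀ a b : ℝ, ∃ M : ℝ, ∀ s : ℂ, a ≤ s.re → s.re ≤ b → ‖Λ s‖ ≤ M) := by
  obtain ⟨w, hw, hfe⟩ := hF.fe
  have hww : w * conj w = 1 := by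
    rw [Complex.mul_conj, Complex.normSq_eq_norm_sq, hw]
    simp
  obtain ⟨P, hP⟩ : ∃ P : ℂ → ℂ, P = fun s => GGm R μ s * F s := ⟨_, rfl⟩
  have hPv : ∀ s, P s = GGm R μ s * F s := fun s => by rw [hP]
  have hPd : ∀ s : ℂ, (s.im ≠ 0 ∨ 0 < s.re) → DifferentiableAt ℂ P s := by
    intro s hs
    rw [hP]
    exact (GGm_diff hR hμ hs).mul (hF.diff s)
  obtain ⟨G, hG⟩ : ∃ G : ℂ → ℂ, G = fun s => w * conj (P (1 - conj s)) := ⟨_, rfl⟩
  have hRv : ∀ s, G s = w * conj (P (1 - conj s)) := fun s => by rw [hG]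
  have hRd : ∀ s : ℂ, (s.im ≠ 0 ∨ s.re < 1) → DifferentiableAt ℂ G s := by
    intro s hs
    have h1 : DifferentiableAt ℂ (fun z : ℂ => P (1 - z)) (conj s) := by
      refine DifferentiableAt.comp (conj s) (f := fun z : ℂ => 1 - z) (hPd _ ?_) (by fun_prop)
      rcases hs with hs | hs
      · left
        simpa using hs
      · right
        simp
        linarith
    have h2 := h1.hasDerivAt.conj_conj
    rw [Complex.conj_conj] at h2
    have h3 : G = fun s => w * (conj ∘ (fun z : ℂ => P (1 - z)) ∘ conj) s := by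
      rw [hG]
      rfl
    rw [h3]
    exact h2.differentiableAt.const_mul w
  have hPR0 : ∀ s : ℂ, s.im ≠ 0 → P s = G s := by
    intro s hs
    rw [hRv, hPv, hPv, hfe s hs]
  have hPR : ∀ s : ℂ, 0 < s.re → s.re < 1 → P s = G s := by
    intro s h1 h2
    by_cases hs : s.im = 0
    · have hc : ContinuousAt (fun y : ℝ => P (s + y * I) - G (s + y * I)) 0 := by
        have hl : ContinuousAt (fun y : ℝ => s + (y : ℂ) * I) 0 := by fun_prop
        have e0 : s + ((0 : ℝ) : ℂ) * I = s := by simp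
        have h3 : ContinuousAt P (s + ((0 : ℝ) : ℂ) * I) := by
          rw [e0]; exact (hPd s (Or.inr h1)).continuousAt
        have h4 : ContinuousAt G (s + ((0 : ℝ) : ℂ) * I) := by
          rw [e0]; exact (hRd s (Or.inr h2)).continuousAt
        exact (ContinuousAt.comp (f := fun y : ℝ => s + (y : ℂ) * I) h3 hl).sub
          (ContinuousAt.comp (f := fun y : ℝ => s + (y : ℂ) * I) h4 hl)
      have h3 : Tendsto (fun y : ℝ => P (s + y * I) - G (s + y * I)) (𝓝[≠] 0)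
          (𝓝 (P (s + ((0 : ℝ) : ℂ) * I) - G (s + ((0 : ℝ) : ℂ) * I))) := hc.tendsto.mono_left nhdsWithin_le_nhds
      have h4 : Tendsto (fun y : ℝ => P (s + y * I) - G (s + y * I)) (𝓝[≠] 0) (𝓝 0) := by
        refine tendsto_const_nhds.congr' ?_
        filter_upwards [self_mem_nhdsWithin] with y hy
        have h5 : (s + (y : ℂ) * I).im ≠ 0 := by
          simp [hs]
          exact hy
        rw [hPR0 _ h5, sub_self]
      have h5 := tendsto_nhds_unique h3 h4
      have e0 : s + ((0 : ℝ) : ℂ) * I = s := by simp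
      rw [e0] at h5
      exact sub_eq_zero.1 h5
    · exact hPR0 s hs
  classical
  obtain ⟨Λ, hΛ⟩ : ∃ Λ : ℂ → ℂ, Λ = fun s => if 0 < s.re then P s else G s := ⟨_, rfl⟩
  have hΛP : ∀ s : ℂ, (s.im ≠ 0 ∨ 0 < s.re) → Λ s = P s := by
    intro s hs
    rw [hΛ]
    simp only
    split_ifs with h
    · rfl
    · rcases hs with hs | hs
      · exact (hPR0 s hs).symm
      · exact absurd hs h
  have hΛR : ∀ s : ℂ, s.re < 1 → Λ s = G s := by
    intro s hs
    rw [hΛ]
    simp only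
    split_ifs with h
    · exact hPR s h hs
    · rfl
  have hΛd : Differentiable ℂ Λ := by
    intro s
    rcases lt_or_ge 0 s.re with h | h
    · refine (hPd s (Or.inr h)).congr_of_eventuallyEq ?_
      have : ∀ᶠ z : ℂ in 𝓝 s, 0 < z.re := (Complex.continuous_re.tendsto s).eventually (lt_mem_nhds h)
      filter_upwards [this] with z hz
      exact hΛP z (Or.inr hz)
    · have h1 : s.re < 1 := by linarith
      refine (hRd s (Or.inr h1)).congr_of_eventuallyEq ?_
      have : ∀ᶠ z : ℂ in 𝓝 s, z.re < 1 := (Complex.continuous_re.tendsto s).eventually (gt_mem_nhds h1)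
      filter_upwards [this] with z hz
      exact hΛR z hz
  refine ⟨Λ, w, hw, hΛd, ?_, fun s hs => (hΛP s hs).trans (hPv s), ?_⟩
  · intro s
    rcases lt_or_ge s.re 1 with h | h
    · rw [hΛR s h, hRv, hΛP (1 - conj s) (Or.inr (by simp; linarith))]
    · have e : 1 - conj (1 - conj s) = s := by
        rw [map_sub, map_one, Complex.conj_conj]
        ring
      rw [hΛP s (Or.inr (by linarith)), hΛR (1 - conj s) (by simp; linarith), hRv, e, map_mul,
        Complex.conj_conj, ← mul_assoc, hww, one_mul]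
  · intro a b
    obtain ⟨C1, hC1⟩ := hF.vert a b
    have hK : IsCompact (Set.Icc a b ×ℂ Set.Icc (-1 : ℝ) 1) := isCompact_Icc.reProdIm isCompact_Icc
    obtain ⟨C2, hC2⟩ := hK.exists_bound_of_continuousOn (f := Λ) hΛd.continuous.continuousOn
    refine ⟨max C1 C2, fun s hs1 hs2 => ?_⟩
    rcases le_or_gt 1 |s.im| with h1 | h1
    · refine le_trans ?_ (le_max_left _ _)
      have him : s.im ≠ 0 := by
        intro h0; rw [h0, abs_zero] at h1; linarith
      rw [hΛP s (Or.inl him), hPv]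
      exact hC1 s hs1 hs2 h1
    · refine le_trans (hC2 s ?_) (le_max_right _ _)
      rw [Complex.mem_reProdIm]
      have := abs_lt.1 h1
      exact ⟨⟨hs1, hs2⟩, ⟨this.1.le, this.2.le⟩⟩


end glue

lemma norm_Gamma_le {z : ℂ} (hz : 0 < z.re) : ‖Complex.Gamma z‖ ≤ Real.Gamma z.re := by
  rw [Complex.Gamma_eq_integral hz, Real.Gamma_eq_integral hz, Complex.GammaIntegral]
  refine (MeasureTheory.norm_integral_le_integral_norm _).trans (le_of_eq ?_)
  apply MeasureTheory.setIntegral_congr_fun measurableSet_Ioi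
  intro x hx
  rw [Set.mem_Ioi] at hx
  simp only
  rw [norm_mul, Complex.norm_real, Real.norm_of_nonneg (Real.exp_pos _).le,
    Complex.norm_cpow_eq_rpow_re_of_pos hx, Complex.sub_re, Complex.one_re]

lemma Gamma_le_exp {x : ℝ} (hx : 1 ≤ x) : Real.Gamma x ≤ Real.exp ((x + 1) ^ 2) := by
  set n := ⌈x⌉₊ with hn
  have h1 : x ≤ n := Nat.le_ceil x
  have h2 : (n:ℝ) < x + 1 := Nat.ceil_lt_add_one (by linarith)
  have h3 : Real.Gamma x ≤ max (Real.Gamma 1) (Real.Gamma (n + 1)) :=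
    Real.convexOn_Gamma.le_max_of_mem_Icc (by norm_num [Set.mem_Ioi]) (by
      show (0:ℝ) < n + 1
      linarith) ⟨hx, by linarith⟩
  rw [Real.Gamma_one, Real.Gamma_nat_eq_factorial] at h3
  have h4 : (1:ℝ) ≤ (n.factorial : ℝ) := by exact_mod_cast Nat.one_le_iff_ne_zero.2 n.factorial_ne_zero
  rw [max_eq_right h4] at h3
  have h5 : (n.factorial : ℝ) ≤ (n:ℝ) ^ n := by exact_mod_cast n.factorial_le_pow
  have h6 : (n:ℝ) ^ n ≤ (Real.exp n) ^ n := by
    apply pow_le_pow_left₀ (Nat.cast_nonneg n)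
    linarith [Real.add_one_le_exp (n:ℝ)]
  rw [← Real.exp_nat_mul] at h6
  refine h3.trans (h5.trans (h6.trans ?_))
  apply Real.exp_le_exp.2
  have h0 : (0:ℝ) ≤ n := Nat.cast_nonneg n
  nlinarith

lemma gr_norm {x : ℝ} (hx : 0 ≤ x) {s : ℂ} (hs : 2 ≤ s.re) :
    ‖Gammaℝ (s + x)‖ ≤ Real.exp ((‖s‖ + x + 2) ^ 2) := by
  have hpi := Real.pi_gt_three
  have hre : (s + (x : ℂ)).re = s.re + x := by rw [Complex.add_re, Complex.ofReal_re]
  have h1 : (((s + (x : ℂ)) / 2)).re = (s.re + x) / 2 := by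
    rw [show ((s + (x : ℂ)) / 2) = (s + (x : ℂ)) * ((1 / 2 : ℝ) : ℂ) by push_cast; ring,
      Complex.re_mul_ofReal, hre]
    ring
  have h2 : ‖Complex.Gamma ((s + x) / 2)‖ ≤ Real.Gamma ((s.re + x) / 2) := by
    have := norm_Gamma_le (z := (s + x) / 2) (by rw [h1]; linarith)
    rwa [h1] at this
  have h3 := Gamma_le_exp (x := (s.re + x) / 2) (by linarith)
  have h4 : ‖(Real.pi : ℂ) ^ (-(s + (x : ℂ)) / 2)‖ ≤ 1 := by
    rw [Complex.norm_cpow_eq_rpow_re_of_pos Real.pi_pos]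
    apply Real.rpow_le_one_of_one_le_of_nonpos (by linarith)
    have : (-(s + (x : ℂ)) / 2).re = -((s.re + x) / 2) := by
      rw [show (-(s + (x : ℂ)) / 2) = -((s + (x : ℂ)) / 2) by ring, Complex.neg_re, h1]
    rw [this]
    linarith
  have h5 : s.re ≤ ‖s‖ := Complex.re_le_norm s
  unfold Gammaℝ
  rw [norm_mul]
  calc ‖(Real.pi : ℂ) ^ (-(s + (x : ℂ)) / 2)‖ * ‖Complex.Gamma ((s + x) / 2)‖ ≤
      1 * Real.exp (((s.re + x) / 2 + 1) ^ 2) :=
        mul_le_mul h4 (h2.trans h3) (norm_nonneg _) zero_le_one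
    _ ≤ Real.exp ((‖s‖ + x + 2) ^ 2) := by
        rw [one_mul]
        apply Real.exp_le_exp.2
        have h6 : 0 ≤ s.re := by linarith
        apply pow_le_pow_left₀ (by positivity)
        linarith

/-- the completed function has finite order -/
theorem order {ι : Type} [Fintype ι] {R : ℝ} {μ : ι → ℝ} {F : ℂ → ℂ} (hR : 1 ≤ R) (hμ : ∀ i, 0 ≤ μ i)
    {Λ : ℂ → ℂ} {w : ℂ} (hw : ‖w‖ = 1) (hfe : ∀ s, Λ s = w * conj (Λ (1 - conj s)))
    (heq : ∀ s : ℂ, (s.im ≠ 0 ∨ 0 < s.re) → Λ s = GGm R μ s * F s)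
    (hst : ∀ a b : ℝ, ∃ M : ℝ, ∀ s : ℂ, a ≤ s.re → s.re ≤ b → ‖Λ s‖ ≤ M)
    {B : ℝ} (hB : ∀ s : ℂ, 3 / 2 ≤ s.re → ‖F s‖ ≤ B) :
    ∃ A ρ : ℝ, ∀ s : ℂ, ‖Λ s‖ ≤ Real.exp (A * (1 + ‖s‖) ^ ρ) := by
  obtain ⟨M, hM⟩ := hst (-2) 3
  obtain ⟨A, hA⟩ : ∃ A : ℝ, A = |M| + |B| + Real.log R + ∑ i, (μ i + 3) ^ 2 := ⟨_, rfl⟩
  have hlR : 0 ≤ Real.log R := Real.log_nonneg hR
  have hsum0 : 0 ≤ ∑ i, (μ i + 3) ^ 2 := Finset.sum_nonneg fun i _ => sq_nonneg _
  have hA0 : 0 ≤ A := by rw [hA]; positivity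
  have hR0 : 0 < R := by linarith
  have hright : ∀ s : ℂ, 2 ≤ s.re → ‖Λ s‖ ≤ Real.exp (A * (1 + ‖s‖) ^ 2) := by
    intro s hs
    have hn : 0 ≤ ‖s‖ := norm_nonneg s
    rw [heq s (Or.inr (by linarith)), norm_mul]
    have h1 : ‖F s‖ ≤ Real.exp (|B| * (1 + ‖s‖) ^ 2) := by
      have h2 := (hB s (by linarith)).trans (le_abs_self B)
      have h3 : |B| ≤ Real.exp |B| := by have := Real.add_one_le_exp |B|; linarith
      refine h2.trans (h3.trans (Real.exp_le_exp.2 ?_))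
      exact le_mul_of_one_le_right (abs_nonneg B) (one_le_pow₀ (by linarith))
    have h2 : ‖GGm R μ s‖ ≤ Real.exp ((Real.log R + ∑ i, (μ i + 3) ^ 2) * (1 + ‖s‖) ^ 2) := by
      unfold GGm
      rw [norm_mul, add_mul, Real.exp_add]
      refine mul_le_mul ?_ ?_ (norm_nonneg _) (Real.exp_pos _).le
      · rw [Complex.norm_cpow_eq_rpow_re_of_pos hR0, Real.rpow_def_of_pos hR0]
        apply Real.exp_le_exp.2
        apply mul_le_mul_of_nonneg_left _ hlR
        have h3 : (s / 2).re = s.re / 2 := by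
          rw [show s / 2 = s * ((1 / 2 : ℝ) : ℂ) by push_cast; ring, Complex.re_mul_ofReal]
          ring
        rw [h3]
        have h4 := Complex.re_le_norm s
        nlinarith
      · rw [norm_prod, Finset.sum_mul, Real.exp_sum]
        apply Finset.prod_le_prod
        · intro i _
          exact norm_nonneg _
        · intro i _
          refine (gr_norm (hμ i) hs).trans (Real.exp_le_exp.2 ?_)
          rw [← mul_pow]
          apply pow_le_pow_left₀
          · have := hμ i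
            positivity
          · have := hμ i
            nlinarith
    calc ‖GGm R μ s‖ * ‖F s‖ ≤ Real.exp ((Real.log R + ∑ i, (μ i + 3) ^ 2) * (1 + ‖s‖) ^ 2) *
          Real.exp (|B| * (1 + ‖s‖) ^ 2) := mul_le_mul h2 h1 (norm_nonneg _) (Real.exp_pos _).le
      _ = Real.exp ((Real.log R + ∑ i, (μ i + 3) ^ 2 + |B|) * (1 + ‖s‖) ^ 2) := by
          rw [← Real.exp_add]
          congr 1
          ring
      _ ≤ _ := by
          apply Real.exp_le_exp.2
          apply mul_le_mul_of_nonneg_right _ (by positivity)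
          rw [hA]
          have := abs_nonneg M
          linarith
  refine ⟨4 * A, 2, fun s => ?_⟩
  have hn : 0 ≤ ‖s‖ := norm_nonneg s
  rw [show (1 + ‖s‖) ^ (2 : ℝ) = (1 + ‖s‖) ^ 2 by norm_num]
  rcases le_or_gt 2 s.re with h | h
  · refine (hright s h).trans (Real.exp_le_exp.2 ?_)
    have : 0 ≤ A * (1 + ‖s‖) ^ 2 := by positivity
    linarith
  rcases le_or_gt s.re (-1) with h' | h'
  · have e : ‖Λ s‖ = ‖Λ (1 - conj s)‖ := by
      rw [hfe s, norm_mul, hw, one_mul, RCLike.norm_conj]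
    rw [e]
    refine (hright (1 - conj s) ?_).trans (Real.exp_le_exp.2 ?_)
    · simp
      linarith
    · have h1 : ‖1 - conj s‖ ≤ 1 + ‖s‖ := by
        refine (norm_sub_le _ _).trans ?_
        rw [norm_one, RCLike.norm_conj]
      have h2 : (1 + ‖1 - conj s‖) ^ 2 ≤ (2 * (1 + ‖s‖)) ^ 2 := by
        apply pow_le_pow_left₀ (by positivity)
        linarith
      calc A * (1 + ‖1 - conj s‖) ^ 2 ≤ A * (2 * (1 + ‖s‖)) ^ 2 := mul_le_mul_of_nonneg_left h2 hA0
        _ = 4 * A * (1 + ‖s‖) ^ 2 := by ring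
  · have h1 := (hM s (by linarith) (by linarith)).trans (le_abs_self M)
    have h3 : |M| ≤ Real.exp |M| := by have := Real.add_one_le_exp |M|; linarith
    refine h1.trans (h3.trans (Real.exp_le_exp.2 ?_))
    have h4 : |M| ≤ A := by
      rw [hA]
      have := abs_nonneg B
      linarith
    have h5 : 1 ≤ (1 + ‖s‖) ^ 2 := one_le_pow₀ (by linarith)
    nlinarith

end Pool.Agent.Zk6.HM
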