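import Pool.Agent.Y772.DK.Main
import Pool.Agent.W355.UN.Stm

set_option autoImplicit false

/-!
# Hecke L-functions as Dirichlet series: coefficients and traces
-/

open NumberField Complex Filter Topology Ideal

namespace Pool.Agent.Zk6.HM

open Pool.Agent.Y773 (LI VM cc)
open Pool.Agent.Y772.DK (NN NN_finite cc_mul sum_VM finite_dvd)
open Pool.Agent.W355.UN (Conv)

variable {K : Type} [Field K] [NumberField K]

/-- the ideals of norm `n` -/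
noncomputable def NF (K : Type) [Field K] [NumberField K] (n : ℕ) : Finset (Ideal (𝓞 K)) :=
  (NN_finite (K := K) n).toFinset

lemma mem_NF {n : ℕ} {𝔞 : Ideal (𝓞 K)} : 𝔞 ∈ NF K n ↔ absNorm 𝔞 = n := by
  unfold NF
  rw [Set.Finite.mem_toFinset]
  rfl

/-- the coefficients -/
noncomputable def bb (ψ : Ideal (𝓞 K) →*₀ ℂ) (n : ℕ) : ℂ := ∑ 𝔞 ∈ NF K n, ψ 𝔞

lemma bb_one (ψ : Ideal (𝓞 K) →*₀ ℂ) : bb ψ 1 = 1 := by
  have h : NF K 1 = {1} := by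
    ext 𝔞
    rw [mem_NF, Finset.mem_singleton, absNorm_eq_one_iff, Ideal.one_eq_top]
  unfold bb
  rw [h, Finset.sum_singleton, map_one]

lemma cc_sum (ψ : Ideal (𝓞 K) →*₀ ℂ) (n : ℕ) :
    ((ArithmeticFunction.vonMangoldt n : ℝ) : ℂ) * cc ψ n = ∑ 𝔞 ∈ NF K n, (VM 𝔞 : ℂ) * ψ 𝔞 := by
  rw [mul_comm, cc_mul, finsum_mem_eq_finite_toFinset_sum _ (NN_finite n)]
  rfl

/-- the divisors of an ideal -/
noncomputable def DF {𝔞 : Ideal (𝓞 K)} (h : 𝔞 ≠ 0) : Finset (Ideal (𝓞 K)) := (finite_dvd h).toFinset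

lemma mem_DF {𝔞 𝔡 : Ideal (𝓞 K)} (h : 𝔞 ≠ 0) : 𝔡 ∈ DF h ↔ 𝔡 ∣ 𝔞 := by
  unfold DF
  rw [Set.Finite.mem_toFinset]
  rfl

lemma sum_DF {𝔞 : Ideal (𝓞 K)} (h : 𝔞 ≠ 0) : ∑ 𝔡 ∈ DF h, VM 𝔡 = Real.log (absNorm 𝔞) := by
  rw [← sum_VM 𝔞 h, finsum_mem_eq_finite_toFinset_sum _ (finite_dvd h)]
  rfl

theorem conv_bb (ψ : Ideal (𝓞 K) →*₀ ℂ) : Conv (bb ψ) (cc ψ) := by
  classical
  intro n hn
  -- the pairs of ideals with product of norm `n`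
  obtain ⟨P, hP⟩ : ∃ P : Finset (Ideal (𝓞 K) × Ideal (𝓞 K)),
      ∀ x, x ∈ P ↔ absNorm x.1 * absNorm x.2 = n := by
    refine ⟨(n.divisors.biUnion (NF K) ×ˢ n.divisors.biUnion (NF K)).filter
      (fun x => absNorm x.1 * absNorm x.2 = n), fun x => ?_⟩
    rw [Finset.mem_filter, Finset.mem_product, Finset.mem_biUnion, Finset.mem_biUnion]
    constructor
    · exact fun h => h.2
    · intro h
      refine ⟨⟨⟨absNorm x.1, ?_, mem_NF.2 rfl⟩, ⟨absNorm x.2, ?_, mem_NF.2 rfl⟩⟩, h⟩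
      · exact Nat.mem_divisors.2 ⟨⟨_, h.symm⟩, hn⟩
      · exact Nat.mem_divisors.2 ⟨⟨absNorm x.1, by rw [mul_comm]; exact h.symm⟩, hn⟩
  have h1 : ∑ x ∈ P, (VM x.1 : ℂ) * ψ x.1 * ψ x.2 = bb ψ n * ((Real.log n : ℝ) : ℂ) := by
    rw [← Finset.sum_fiberwise_of_maps_to (s := P) (t := NF K n) (g := fun x => x.1 * x.2)
      (fun x hx => by rw [mem_NF, map_mul]; exact (hP x).1 hx)]
    unfold bb
    rw [Finset.sum_mul]
    apply Finset.sum_congr rfl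
    intro 𝔞 h𝔞
    rw [mem_NF] at h𝔞
    have h0 : 𝔞 ≠ 0 := by
      rintro rfl
      rw [map_zero] at h𝔞
      exact hn h𝔞.symm
    have h2 : ∀ x ∈ P.filter (fun x => x.1 * x.2 = 𝔞), (VM x.1 : ℂ) * ψ x.1 * ψ x.2 = ψ 𝔞 * (VM x.1 : ℂ) := by
      intro x hx
      rw [Finset.mem_filter] at hx
      rw [← hx.2, map_mul]
      ring
    rw [Finset.sum_congr rfl h2, ← Finset.mul_sum]
    congr 1
    rw [← h𝔞, ← sum_DF h0]
    push_cast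
    refine Finset.sum_bij' (fun x _ => x.1) (fun 𝔡 h => (𝔡, ((mem_DF h0).1 h).choose)) ?_ ?_ ?_ ?_ ?_
    · intro x hx
      rw [Finset.mem_filter] at hx
      rw [mem_DF]
      exact ⟨x.2, hx.2.symm⟩
    · intro 𝔡 h
      have h3 := ((mem_DF h0).1 h).choose_spec
      rw [Finset.mem_filter, hP]
      refine ⟨?_, h3.symm⟩
      rw [← map_mul, ← h3]
      exact h𝔞
    · intro x hx
      rw [Finset.mem_filter] at hx
      have hd : x.1 ≠ 0 := by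
        intro h
        rw [h, zero_mul] at hx
        exact h0 hx.2.symm
      have hdv : x.1 ∣ 𝔞 := ⟨x.2, hx.2.symm⟩
      apply Prod.ext
      · rfl
      · refine mul_left_cancel₀ hd ?_
        change x.1 * hdv.choose = x.1 * x.2
        rw [← hdv.choose_spec, hx.2]
    · intro 𝔡 h
      rfl
    · intro x hx
      rfl
  rw [← h1]
  rw [← Finset.sum_fiberwise_of_maps_to (s := P) (t := n.divisors) (g := fun x => absNorm x.1)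
      (fun x hx => Nat.mem_divisors.2 ⟨⟨_, ((hP x).1 hx).symm⟩, hn⟩)]
  apply Finset.sum_congr rfl
  intro d hd
  have hd0 : d ≠ 0 := (Nat.pos_of_mem_divisors hd).ne'
  have hdn : d ∣ n := Nat.dvd_of_mem_divisors hd
  have h3 : P.filter (fun x => absNorm x.1 = d) = NF K d ×ˢ NF K (n / d) := by
    ext x
    rw [Finset.mem_filter, hP, Finset.mem_product, mem_NF, mem_NF]
    constructor
    · rintro ⟨h4, h5⟩
      refine ⟨h5, ?_⟩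
      rw [← h4, h5, Nat.mul_div_cancel_left _ (Nat.pos_of_ne_zero hd0)]
    · rintro ⟨h4, h5⟩
      refine ⟨?_, h4⟩
      rw [h4, h5, Nat.mul_div_cancel' hdn]
  rw [h3, Finset.sum_product, cc_sum]
  unfold bb
  rw [Finset.sum_mul_sum]

/-- the coefficients, and the Dirichlet series -/
theorem lseries_bb {ψ : Ideal (𝓞 K) →*₀ ℂ} (hψ : ∀ 𝔞, ‖ψ 𝔞‖ ≤ 1) {s : ℂ} (hs : 1 < s.re) :
    LSeries (bb ψ) s = LI ψ s := by
  obtain ⟨A, -, hD⟩ := Pool.Agent.Y772.DK.t_dirK K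
  obtain ⟨d1, -⟩ := hD ψ hψ
  have hsum := (d1 s hs).of_norm
  have h1 := hsum.hasSum.tsum_fiberwise (fun 𝔞 : Ideal (𝓞 K) => absNorm 𝔞)
  unfold LI
  rw [← h1.tsum_eq]
  unfold LSeries
  refine tsum_congr fun n => ?_
  have hfin : Finite ((fun 𝔞 : Ideal (𝓞 K) => absNorm 𝔞) ⁻¹' {n} : Set (Ideal (𝓞 K))) := NN_finite n
  have h2 : ∑' 𝔞 : ((fun 𝔞 : Ideal (𝓞 K) => absNorm 𝔞) ⁻¹' {n} : Set (Ideal (𝓞 K))),
      ψ 𝔞.1 * ((absNorm 𝔞.1 : ℕ) : ℂ) ^ (-s) = bb ψ n * (n : ℂ) ^ (-s) := by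
    have h3 : ∀ 𝔞 : ((fun 𝔞 : Ideal (𝓞 K) => absNorm 𝔞) ⁻¹' {n} : Set (Ideal (𝓞 K))),
        ψ 𝔞.1 * ((absNorm 𝔞.1 : ℕ) : ℂ) ^ (-s) = ψ 𝔞.1 * (n : ℂ) ^ (-s) := by
      intro 𝔞
      have : absNorm 𝔞.1 = n := 𝔞.2
      rw [this]
    rw [tsum_congr h3, tsum_mul_right]
    congr 1
    unfold bb
    have h4 : ∑ 𝔞 ∈ NF K n, ψ 𝔞 = ∑ᶠ 𝔞 ∈ {𝔞 : Ideal (𝓞 K) | absNorm 𝔞 = n}, ψ 𝔞 :=
      (finsum_mem_eq_finite_toFinset_sum _ (NN_finite n)).symm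
    rw [tsum_eq_finsum (Set.toFinite _), h4]
    exact finsum_set_coe_eq_finsum_mem (f := fun 𝔞 => ψ 𝔞) {𝔞 : Ideal (𝓞 K) | absNorm 𝔞 = n}
  rw [h2]
  rcases eq_or_ne n 0 with rfl | hn
  · rw [LSeries.term_zero]
    have h3 : bb ψ 0 = 0 := by
      unfold bb
      apply Finset.sum_eq_zero
      intro 𝔞 h𝔞
      rw [mem_NF, absNorm_eq_zero_iff] at h𝔞
      rw [h𝔞, ← Ideal.zero_eq_bot, map_zero]
    rw [h3, zero_mul]
  · rw [LSeries.term_of_ne_zero hn, Complex.cpow_neg, div_eq_mul_inv]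

theorem norm_cc {ψ : Ideal (𝓞 K) →*₀ ℂ} (hψ : ∀ 𝔞, ‖ψ 𝔞‖ ≤ 1) (n : ℕ) :
    ‖cc ψ n‖ ≤ Module.finrank ℚ K := by
  obtain ⟨A, -, hD⟩ := Pool.Agent.Y772.DK.t_dirK K
  exact (hD ψ hψ).2.2.2.2.2.2.1 n

theorem bound_LI (K : Type) [Field K] [NumberField K] : ∃ A : ℝ, ∀ ψ : Ideal (𝓞 K) →*₀ ℂ, (∀ 𝔞, ‖ψ 𝔞‖ ≤ 1) →
    ∀ s : ℂ, 3 / 2 ≤ s.re → ‖LI ψ s‖ ≤ A := by
  obtain ⟨A, -, hD⟩ := Pool.Agent.Y772.DK.t_dirK K
  exact ⟨A, fun ψ hψ => (hD ψ hψ).2.2.2.2.1⟩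

end Pool.Agent.Zk6.HM
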