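import Pool.Agent.Zk6.HM.A
import Pool.Agent.Zk6.HM.B
import Pool.Agent.N784.CZ.Prim
import Pool.Agent.Y23.G.An1

set_option autoImplicit false

/-!
# Hecke L-functions as members of the class of L-functions with an Euler product
-/

open NumberField Complex Filter Topology
open scoped ComplexConjugate

namespace Pool.Agent.Zk6.HM

open Pool.Agent.Y773 (LI cc)
open Pool.Agent.N784.HC (IsHecke CTyp FEm GGm)
open Pool.Agent.Y23.G (LFun)
open Pool.Agent.TH839.NA (RawT)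

/-- the completed function of a Hecke character -/
theorem hecke_raw {K : Type} [Field K] [NumberField K] {n : (K →+* ℂ) → ℕ} (hn : CTyp n)
    {𝔣 : Ideal (𝓞 K)} {ψ : Ideal (𝓞 K) →*₀ ℂ} (htop : 𝔣 ≠ ⊤) (h : IsHecke K 𝔣 n ψ) :
    (∀ 𝔞, ‖ψ 𝔞‖ ≤ 1) ∧ ∃ (a : Fin (Module.finrank ℚ K) → ℝ) (X : ℂ → ℂ),
      (∀ j, 0 ≤ a j ∧ a j ≤ (∑ φ, (n φ : ℝ)) + 3) ∧
      RawT (1 / 2) (Module.finrank ℚ K) 0
        (((Ideal.absNorm 𝔣 * Ideal.absNorm (differentIdeal ℤ (𝓞 K)) : ℕ) : ℝ)) (fun j => (a j : ℂ))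
        (bb ψ) (cc ψ) X := by
  obtain ⟨hψ, μ, F, hμ, hFE, hFL⟩ := Pool.Agent.N784.CZ.feM hn htop h
  have hcard : Fintype.card (K →+* ℂ) = Module.finrank ℚ K := Pool.Agent.Y773.G.card_emb
  obtain ⟨e⟩ : Nonempty (Fin (Module.finrank ℚ K) ≃ (K →+* ℂ)) := ⟨(Fintype.equivFinOfCardEq hcard).symm⟩
  obtain ⟨R, hR⟩ : ∃ R : ℝ, R = ((Ideal.absNorm 𝔣 * Ideal.absNorm (differentIdeal ℤ (𝓞 K)) : ℕ) : ℝ) := ⟨_, rfl⟩
  rw [← hR] at hFE ⊢
  have hR1 : 1 ≤ R := by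
    rw [hR]
    have h1 : Ideal.absNorm 𝔣 ≠ 0 := by
      rw [Ne, Ideal.absNorm_eq_zero_iff]
      exact h.ne_bot
    have h2 : Ideal.absNorm (differentIdeal ℤ (𝓞 K)) ≠ 0 := by
      rw [Ne, Ideal.absNorm_eq_zero_iff]
      exact differentIdeal_ne_bot
    exact_mod_cast Nat.one_le_iff_ne_zero.mpr (Nat.mul_ne_zero h1 h2)
  obtain ⟨B, hB⟩ := bound_LI K
  obtain ⟨Λ, w, hw, hd, hfe, heq, hst⟩ := exists_entire (by linarith) (fun i => (hμ i).1) hFE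
  have hord := order hR1 (fun i => (hμ i).1) hw hfe heq hst (B := B) (fun s hs => by
    rw [hFL s (by linarith)]
    exact hB ψ hψ s hs)
  refine ⟨hψ, fun j => μ (e j), Λ, fun j => hμ (e j), ?_⟩
  have hm : 1 ≤ Module.finrank ℚ K := Module.finrank_pos
  refine ⟨hm, Nat.zero_le _, hR1, by norm_num, by norm_num, fun j => ?_, hd, hord, ⟨w, hw, hfe⟩, bb_one ψ,
    fun k => ?_, conv_bb ψ, ⟨2, fun s hs => ?_⟩⟩
  · rw [Complex.ofReal_re]
    have := (hμ (e j)).1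
    linarith
  · rcases Nat.eq_zero_or_pos k with rfl | hk
    · have h1 : cc ψ 0 = 0 := by
        unfold cc
        simp
      rw [h1, norm_zero]
      positivity
    · refine (norm_cc hψ k).trans ?_
      have h1 : (1 : ℝ) ≤ (k : ℝ) ^ (1 / 2 : ℝ) := Real.one_le_rpow (by exact_mod_cast hk) (by norm_num)
      exact le_mul_of_one_le_right (Nat.cast_nonneg _) h1
  · rw [heq s (Or.inr (by linarith)), hFL s (by linarith), lseries_bb hψ (by linarith), pow_zero, one_mul]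
    unfold GGm
    congr 2
    exact (Equiv.prod_comp e (fun i => Gammaℝ (s + (μ i : ℂ)))).symm

/-- **Hecke L-functions.** -/
theorem hecke_L {K : Type} [Field K] [NumberField K] {n : (K →+* ℂ) → ℕ} (hn : CTyp n)
    {𝔣 : Ideal (𝓞 K)} {ψ : Ideal (𝓞 K) →*₀ ℂ} (htop : 𝔣 ≠ ⊤) (h : IsHecke K 𝔣 n ψ) :
    ∃ L : LFun, L.m = Module.finrank ℚ K ∧ L.r = 0 ∧
      L.N = ((Ideal.absNorm 𝔣 * Ideal.absNorm (differentIdeal ℤ (𝓞 K)) : ℕ) : ℝ) ∧
      (∀ j, 0 ≤ (L.a j).re ∧ ‖L.a j‖ ≤ (∑ φ, (n φ : ℝ)) + 3) ∧ L.b = bb ψ ∧ L.c = cc ψ ∧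
      (∀ k, ‖L.c k‖ ≤ L.m) ∧ ∀ s : ℂ, 1 < s.re → LSeries L.b s = LI ψ s := by
  obtain ⟨hψ, a, X, ha, hraw⟩ := hecke_raw hn htop h
  refine ⟨{ m := Module.finrank ℚ K, r := 0, N := _, a := fun j => (a j : ℂ), b := bb ψ, c := cc ψ, X := X,
            raw := hraw, str := fun j => ?_ }, rfl, rfl, rfl, fun j => ?_, rfl, rfl, fun k => norm_cc hψ k,
    fun s hs => lseries_bb hψ hs⟩
  · rw [Complex.ofReal_re]
    have := (ha j).1
    linarith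
  · simp only
    rw [Complex.ofReal_re, Complex.norm_real, Real.norm_of_nonneg (ha j).1]
    exact ha j

end Pool.Agent.Zk6.HM
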