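import Pool.Agent.Y23.G.An1

set_option autoImplicit false

/-!
# Products of L-functions with an Euler product
-/

open Complex Filter Topology
open scoped ComplexConjugate

namespace Pool.Agent.Zk6.HM

open Pool.Agent.Y23.G (LFun)
open Pool.Agent.TH839.NA (RawT)
open Pool.Agent.W355.UN (Conv)

lemma conv_mul {b1 b2 c1 c2 : ℕ → ℂ} (h1 : Conv b1 c1) (h2 : Conv b2 c2) :
    Conv (LSeries.convolution b1 b2) (fun n => c1 n + c2 n) := by
  intro n hn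
  have e1 : ∀ x ∈ n.divisorsAntidiagonal, b1 x.1 * b2 x.2 * ((Real.log n : ℝ) : ℂ) =
      (∑ d ∈ x.1.divisorsAntidiagonal, ((ArithmeticFunction.vonMangoldt d.1 : ℝ) : ℂ) * c1 d.1 * b1 d.2 * b2 x.2) +
      ∑ d ∈ x.2.divisorsAntidiagonal, ((ArithmeticFunction.vonMangoldt d.1 : ℝ) : ℂ) * c2 d.1 * (b1 x.1 * b2 d.2) := by
    intro x hx
    rw [Nat.mem_divisorsAntidiagonal] at hx
    obtain ⟨hx1, -⟩ := hx
    have a1 : x.1 ≠ 0 := by rintro h; rw [h, zero_mul] at hx1; exact hn hx1.symm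
    have a2 : x.2 ≠ 0 := by rintro h; rw [h, mul_zero] at hx1; exact hn hx1.symm
    have hl : Real.log n = Real.log x.1 + Real.log x.2 := by
      rw [← hx1, Nat.cast_mul, Real.log_mul (by exact_mod_cast a1) (by exact_mod_cast a2)]
    have h3 := h1 x.1 a1
    have h4 := h2 x.2 a2
    rw [← Nat.sum_divisorsAntidiagonal (fun d e => ((ArithmeticFunction.vonMangoldt d : ℝ) : ℂ) * c1 d * b1 e)] at h3
    rw [← Nat.sum_divisorsAntidiagonal (fun d e => ((ArithmeticFunction.vonMangoldt d : ℝ) : ℂ) * c2 d * b2 e)] at h4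
    have h5 : b1 x.1 * b2 x.2 * ((Real.log n : ℝ) : ℂ) = (b1 x.1 * ((Real.log x.1 : ℝ) : ℂ)) * b2 x.2 +
        b1 x.1 * (b2 x.2 * ((Real.log x.2 : ℝ) : ℂ)) := by
      rw [hl]
      push_cast
      ring
    rw [h5, h3, h4, Finset.sum_mul, Finset.mul_sum]
    congr 1
    apply Finset.sum_congr rfl
    intro d _
    ring
  have hc : ∀ k, LSeries.convolution b1 b2 k = ∑ p ∈ k.divisorsAntidiagonal, b1 p.1 * b2 p.2 := fun k => by
    rw [LSeries.convolution_def]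
  rw [hc n, Finset.sum_mul, Finset.sum_congr rfl e1, Finset.sum_add_distrib]
  -- the two triple sums
  have t1 : ∑ x ∈ n.divisorsAntidiagonal, ∑ d ∈ x.1.divisorsAntidiagonal,
      ((ArithmeticFunction.vonMangoldt d.1 : ℝ) : ℂ) * c1 d.1 * b1 d.2 * b2 x.2 =
      ∑ x ∈ n.divisorsAntidiagonal, ∑ y ∈ x.2.divisorsAntidiagonal,
        ((ArithmeticFunction.vonMangoldt x.1 : ℝ) : ℂ) * c1 x.1 * b1 y.1 * b2 y.2 := by
    rw [Finset.sum_sigma', Finset.sum_sigma']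
    apply Finset.sum_nbij' (fun ⟨⟨_, j⟩, ⟨k, l⟩⟩ => ⟨(k, l * j), (l, j)⟩)
      (fun ⟨⟨i, _⟩, ⟨k, l⟩⟩ => ⟨(i * k, l), (i, k)⟩) <;> aesop (add simp mul_assoc)
  have t2 : ∑ x ∈ n.divisorsAntidiagonal, ∑ d ∈ x.2.divisorsAntidiagonal,
      ((ArithmeticFunction.vonMangoldt d.1 : ℝ) : ℂ) * c2 d.1 * (b1 x.1 * b2 d.2) =
      ∑ x ∈ n.divisorsAntidiagonal, ∑ y ∈ x.2.divisorsAntidiagonal,
        ((ArithmeticFunction.vonMangoldt x.1 : ℝ) : ℂ) * c2 x.1 * (b1 y.1 * b2 y.2) := by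
    rw [Finset.sum_sigma', Finset.sum_sigma']
    apply Finset.sum_nbij' (fun ⟨⟨i, _⟩, ⟨k, l⟩⟩ => ⟨(k, i * l), (i, l)⟩)
      (fun ⟨⟨i, _⟩, ⟨k, l⟩⟩ => ⟨(k, i * l), (i, l)⟩) <;>
      aesop (add simp [mul_assoc, mul_left_comm])
  rw [t1, t2, ← Finset.sum_add_distrib]
  rw [← Nat.sum_divisorsAntidiagonal (fun d e => ((ArithmeticFunction.vonMangoldt d : ℝ) : ℂ) * (c1 d + c2 d) *
    LSeries.convolution b1 b2 e)]
  apply Finset.sum_congr rfl
  intro x _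
  rw [hc x.2, Finset.mul_sum, ← Finset.sum_add_distrib]
  apply Finset.sum_congr rfl
  intro y _
  ring

lemma one_le_add {x y : ℕ} (hx : 1 ≤ x) : 1 ≤ x + y := by omega

/-- **Products.** -/
theorem mul_raw {m1 m2 r1 r2 : ℕ} {N1 N2 : ℝ} {a1 : Fin m1 → ℂ} {a2 : Fin m2 → ℂ} {b1 b2 c1 c2 : ℕ → ℂ}
    {X1 X2 : ℂ → ℂ} (h1 : RawT (1 / 2) m1 r1 N1 a1 b1 c1 X1) (h2 : RawT (1 / 2) m2 r2 N2 a2 b2 c2 X2) :
    RawT (1 / 2) (m1 + m2) (r1 + r2) (N1 * N2) (Fin.append a1 a2) (LSeries.convolution b1 b2)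
      (fun n => c1 n + c2 n) (fun s => X1 s * X2 s) := by
  have hN1 := h1.hN
  have hN2 := h2.hN
  refine ⟨one_le_add h1.hm, add_le_add h1.hr h2.hr, one_le_mul_of_one_le_of_one_le hN1 hN2, by norm_num, by norm_num,
    fun j => ?_, h1.entire.mul h2.entire, ?_, ?_, ?_, fun n => ?_, conv_mul h1.conv h2.conv, ?_⟩
  · refine Fin.addCases (fun i => ?_) (fun i => ?_) j
    · rw [Fin.append_left]; exact h1.re_ge i
    · rw [Fin.append_right]; exact h2.re_ge i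
  · obtain ⟨A1, ρ1, o1⟩ := h1.order
    obtain ⟨A2, ρ2, o2⟩ := h2.order
    refine ⟨|A1| + |A2|, max ρ1 ρ2, fun s => ?_⟩
    have hs : 1 ≤ 1 + ‖s‖ := by have := norm_nonneg s; linarith
    have q1 : A1 * (1 + ‖s‖) ^ ρ1 ≤ |A1| * (1 + ‖s‖) ^ (max ρ1 ρ2) :=
      mul_le_mul (le_abs_self _) (Real.rpow_le_rpow_of_exponent_le hs (le_max_left _ _)) (by positivity) (abs_nonneg _)
    have q2 : A2 * (1 + ‖s‖) ^ ρ2 ≤ |A2| * (1 + ‖s‖) ^ (max ρ1 ρ2) :=
      mul_le_mul (le_abs_self _) (Real.rpow_le_rpow_of_exponent_le hs (le_max_right _ _)) (by positivity) (abs_nonneg _)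
    rw [norm_mul]
    calc ‖X1 s‖ * ‖X2 s‖ ≤ Real.exp (A1 * (1 + ‖s‖) ^ ρ1) * Real.exp (A2 * (1 + ‖s‖) ^ ρ2) :=
          mul_le_mul (o1 s) (o2 s) (norm_nonneg _) (Real.exp_pos _).le
      _ = Real.exp (A1 * (1 + ‖s‖) ^ ρ1 + A2 * (1 + ‖s‖) ^ ρ2) := (Real.exp_add _ _).symm
      _ ≤ _ := by
          apply Real.exp_le_exp.2
          rw [add_mul]
          exact add_le_add q1 q2
  · obtain ⟨e1, he1, f1⟩ := h1.fe
    obtain ⟨e2, he2, f2⟩ := h2.fe
    refine ⟨e1 * e2, by rw [norm_mul, he1, he2, one_mul], fun s => ?_⟩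
    rw [map_mul]
    conv_lhs => rw [f1 s, f2 s]
    ring
  · rw [LSeries.convolution_def]
    simp [h1.one, h2.one]
  · refine (norm_add_le _ _).trans ?_
    push_cast
    rw [add_mul]
    exact add_le_add (h1.cb n) (h2.cb n)
  · obtain ⟨σ1, q1⟩ := h1.eq
    obtain ⟨σ2, q2⟩ := h2.eq
    refine ⟨max (max σ1 σ2) 2, fun s hs => ?_⟩
    have s1 : σ1 ≤ s.re := ((le_max_left _ _).trans (le_max_left _ _)).trans hs
    have s2 : σ2 ≤ s.re := ((le_max_right _ _).trans (le_max_left _ _)).trans hs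
    have s3 : 2 ≤ s.re := (le_max_right _ _).trans hs
    have hs1 := (h1.coef (s := s) (by linarith)).1
    have hs2 := (h2.coef (s := s) (by linarith)).1
    have hN10 : (0 : ℝ) < N1 := by linarith
    have hN20 : (0 : ℝ) < N2 := by linarith
    rw [q1 s s1, q2 s s2, LSeries_convolution' hs1 hs2, Fin.prod_univ_add]
    simp only [Fin.append_left, Fin.append_right]
    have e : ((N1 * N2 : ℝ) : ℂ) ^ (s / 2) = (N1 : ℂ) ^ (s / 2) * (N2 : ℂ) ^ (s / 2) := by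
      push_cast
      exact Complex.mul_cpow_ofReal_nonneg hN10.le hN20.le _
    rw [e, pow_add]
    ring

/-- the product of two L-functions -/
theorem mul_L (L1 L2 : LFun) : ∃ L : LFun, L.m = L1.m + L2.m ∧ L.r = L1.r + L2.r ∧ L.N = L1.N * L2.N ∧
    (∀ P : ℂ → Prop, (∀ j, P (L1.a j)) → (∀ j, P (L2.a j)) → ∀ j, P (L.a j)) ∧
    L.b = LSeries.convolution L1.b L2.b ∧ (∀ n, L.c n = L1.c n + L2.c n) ∧ (∀ s, L.X s = L1.X s * L2.X s) := by
  refine ⟨{ m := L1.m + L2.m, r := L1.r + L2.r, N := L1.N * L2.N, a := Fin.append L1.a L2.a, b := _, c := _,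
            X := _, raw := mul_raw L1.raw L2.raw, str := fun j => ?_ }, rfl, rfl, rfl, fun P h1 h2 j => ?_, rfl,
    fun n => rfl, fun s => rfl⟩
  · refine Fin.addCases (fun i => ?_) (fun i => ?_) j
    · rw [Fin.append_left]; exact L1.str i
    · rw [Fin.append_right]; exact L2.str i
  · refine Fin.addCases (fun i => ?_) (fun i => ?_) j
    · simp only [Fin.append_left]; exact h1 i
    · simp only [Fin.append_right]; exact h2 i

end Pool.Agent.Zk6.HM
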