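import Pool.Agent.Zk6.HM.C
import Pool.Agent.Zk6.HM.D
import Pool.Agent.Zk3.WI.Def
import Pool.Agent.Cov.PNT

set_option autoImplicit false

/-!
# Hecke L-functions and their products in the class of the Weil index, uniformly in the conductor
-/

open NumberField Complex Filter Topology
open scoped ComplexConjugate

namespace Pool.Agent.Zk6.HM

open Pool.Agent.Y773 (LI cc)
open Pool.Agent.N784.HC (IsHecke CTyp)
open Pool.Agent.Y23.G (LFun)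
open Pool.Agent.Zk3.WI (Bd)
open ArithmeticFunction (vonMangoldt)

/-- the prime number theorem as an upper bound with a constant -/
theorem psi_le {δ : ℝ} (hδ : 0 < δ) : ∃ e : ℝ, 0 ≤ e ∧ ∀ y : ℝ, 1 ≤ y →
    ∑ n ∈ Finset.Icc 1 ⌊y⌋₊, vonMangoldt n ≤ (1 + δ) * y + e := by
  have h := Pool.Agent.Cov.PNT.psi_div_tendsto
  have h1 := h.eventually (gt_mem_nhds (show (1 : ℝ) < 1 + δ by linarith))
  obtain ⟨Y, hY⟩ := (h1.and (eventually_gt_atTop 0)).exists_forall_of_atTop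
  refine ⟨Chebyshev.psi Y, Chebyshev.psi_nonneg _, fun y hy => ?_⟩
  have e1 : ∑ n ∈ Finset.Icc 1 ⌊y⌋₊, vonMangoldt n = Chebyshev.psi y := by
    unfold Chebyshev.psi
    exact Finset.sum_congr rfl fun _ _ => rfl
  rw [e1]
  rcases le_total Y y with h2 | h2
  · obtain ⟨h3, h4⟩ := hY y h2
    rw [div_lt_iff₀ h4] at h3
    have := Chebyshev.psi_nonneg Y
    linarith
  · have := Chebyshev.psi_mono h2
    have : 0 ≤ (1 + δ) * y := by positivity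
    linarith

theorem primes_of_le {m : ℝ} (hm : 0 ≤ m) {c : ℕ → ℂ} (hc : ∀ n, ‖c n‖ ≤ m) {δ e : ℝ}
    (he : ∀ y : ℝ, 1 ≤ y → ∑ n ∈ Finset.Icc 1 ⌊y⌋₊, vonMangoldt n ≤ (1 + δ) * y + e) :
    ∀ y : ℝ, 1 ≤ y → ∑ n ∈ Finset.Icc 1 ⌊y⌋₊, vonMangoldt n * ‖c n‖ ≤ ((1 + δ) * m) * y + m * e := by
  intro y hy
  calc ∑ n ∈ Finset.Icc 1 ⌊y⌋₊, vonMangoldt n * ‖c n‖
      ≤ ∑ n ∈ Finset.Icc 1 ⌊y⌋₊, vonMangoldt n * m :=
        Finset.sum_le_sum fun n _ => mul_le_mul_of_nonneg_left (hc n) ArithmeticFunction.vonMangoldt_nonneg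
    _ = (∑ n ∈ Finset.Icc 1 ⌊y⌋₊, vonMangoldt n) * m := (Finset.sum_mul _ _ _).symm
    _ ≤ ((1 + δ) * y + e) * m := mul_le_mul_of_nonneg_right (he y hy) hm
    _ = _ := by ring

/-- **Hecke L-functions, uniformly in the character.** For every number field `K`, every infinity type `n` and every
`δ > 0` there is `e` such that every Hecke character of this type, primitive of conductor `𝔣 ≠ 1`, has an L-function
in the class, of degree `[K:ℚ]` and conductor `|d_K| N(𝔣)`, with bounds which do not depend on the character. -/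
theorem hecke_Bd (K : Type) [Field K] [NumberField K] {n : (K →+* ℂ) → ℕ} (hn : CTyp n) {δ : ℝ} (hδ : 0 < δ) :
    ∃ e : ℝ, 0 ≤ e ∧ ∀ (𝔣 : Ideal (𝓞 K)) (ψ : Ideal (𝓞 K) →*₀ ℂ), 𝔣 ≠ ⊤ → IsHecke K 𝔣 n ψ →
      ∃ L : LFun, L.m = Module.finrank ℚ K ∧ L.r = 0 ∧
        L.N = ((Ideal.absNorm 𝔣 * Ideal.absNorm (differentIdeal ℤ (𝓞 K)) : ℕ) : ℝ) ∧
        L.b = bb ψ ∧ L.c = cc ψ ∧ (∀ k, ‖L.c k‖ ≤ L.m) ∧ (∀ s : ℂ, 1 < s.re → LSeries L.b s = LI ψ s) ∧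
        Bd L ((∑ φ, (n φ : ℝ)) + 3) ((1 + δ) * Module.finrank ℚ K) e := by
  obtain ⟨e, he, hpsi⟩ := psi_le hδ
  refine ⟨Module.finrank ℚ K * e, by positivity, fun 𝔣 ψ htop h => ?_⟩
  obtain ⟨L, hm, hr, hN, ha, hb, hc, hcb, hL⟩ := hecke_L hn htop h
  refine ⟨L, hm, hr, hN, hb, hc, hcb, hL, fun j => (ha j).1, fun j => (ha j).2, ?_⟩
  exact primes_of_le (Nat.cast_nonneg _) (fun k => (hcb k).trans (by rw [hm])) hpsi

/-- **Products.** -/
theorem mul_Bd {L1 L2 : LFun} {A1 A2 κ1 κ2 e1 e2 : ℝ} (h1 : Bd L1 A1 κ1 e1) (h2 : Bd L2 A2 κ2 e2) :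
    ∃ L : LFun, L.m = L1.m + L2.m ∧ L.r = L1.r + L2.r ∧ L.N = L1.N * L2.N ∧
      L.b = LSeries.convolution L1.b L2.b ∧ (∀ n, L.c n = L1.c n + L2.c n) ∧ (∀ s, L.X s = L1.X s * L2.X s) ∧
      Bd L (max A1 A2) (κ1 + κ2) (e1 + e2) := by
  obtain ⟨L, hm, hr, hN, hP, hb, hc, hX⟩ := mul_L L1 L2
  refine ⟨L, hm, hr, hN, hb, hc, hX, ?_, ?_, ?_⟩
  · exact hP (fun z => 0 ≤ z.re) h1.arch_re h2.arch_re
  · exact hP (fun z => ‖z‖ ≤ max A1 A2) (fun j => (h1.arch_le j).trans (le_max_left _ _))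
      (fun j => (h2.arch_le j).trans (le_max_right _ _))
  · intro y hy
    calc ∑ n ∈ Finset.Icc 1 ⌊y⌋₊, vonMangoldt n * ‖L.c n‖
        ≤ ∑ n ∈ Finset.Icc 1 ⌊y⌋₊, (vonMangoldt n * ‖L1.c n‖ + vonMangoldt n * ‖L2.c n‖) := by
          refine Finset.sum_le_sum fun n _ => ?_
          rw [hc n, ← mul_add]
          exact mul_le_mul_of_nonneg_left (norm_add_le _ _) ArithmeticFunction.vonMangoldt_nonneg
      _ = ∑ n ∈ Finset.Icc 1 ⌊y⌋₊, vonMangoldt n * ‖L1.c n‖ + ∑ n ∈ Finset.Icc 1 ⌊y⌋₊, vonMangoldt n * ‖L2.c n‖ :=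
          Finset.sum_add_distrib
      _ ≤ (κ1 * y + e1) + (κ2 * y + e2) := add_le_add (h1.primes y hy) (h2.primes y hy)
      _ = _ := by ring

theorem Bd.mono {L : LFun} {A A' κ e : ℝ} (h : Bd L A κ e) (hA : A ≤ A') : Bd L A' κ e :=
  ⟨h.arch_re, fun j => (h.arch_le j).trans hA, h.primes⟩

/-- **Finite products.** -/
theorem prod_Bd (A : ℝ) : ∀ (k : ℕ) (L : Fin (k + 1) → LFun) (κ e : Fin (k + 1) → ℝ),
    (∀ i, Bd (L i) A (κ i) (e i)) →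
    ∃ M : LFun, M.m = ∑ i, (L i).m ∧ M.r = ∑ i, (L i).r ∧ M.N = ∏ i, (L i).N ∧ (∀ n, M.c n = ∑ i, (L i).c n) ∧
      (∀ s, M.X s = ∏ i, (L i).X s) ∧ (∀ s : ℂ, 3 / 2 < s.re → LSeries M.b s = ∏ i, LSeries (L i).b s) ∧
      Bd M A (∑ i, κ i) (∑ i, e i) := by
  intro k
  induction k with
  | zero =>
    intro L κ e h
    refine ⟨L 0, by simp, by simp, by simp, by simp, by simp, by simp, ?_⟩
    simpa using h 0
  | succ k ih =>
    intro L κ e h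
    obtain ⟨M, hm, hr, hN, hc, hX, hb, hB⟩ := ih (fun i => L i.castSucc) (fun i => κ i.castSucc)
      (fun i => e i.castSucc) (fun i => h i.castSucc)
    obtain ⟨M', hm', hr', hN', hb', hc', hX', hB'⟩ := mul_Bd hB (h (Fin.last (k + 1)))
    refine ⟨M', ?_, ?_, ?_, fun n => ?_, fun s => ?_, fun s hs => ?_, ?_⟩
    · rw [hm', hm, Fin.sum_univ_castSucc (n := k + 1)]
    · rw [hr', hr, Fin.sum_univ_castSucc (n := k + 1)]
    · rw [hN', hN, Fin.prod_univ_castSucc (n := k + 1)]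
    · rw [hc', hc, Fin.sum_univ_castSucc (n := k + 1)]
    · rw [hX', hX, Fin.prod_univ_castSucc (n := k + 1)]
    · rw [hb', LSeries_convolution' (M.raw.coef (by linarith)).1
        ((L (Fin.last (k + 1))).raw.coef (by linarith)).1, hb s hs,
        Fin.prod_univ_castSucc (n := k + 1)]
    · rw [Fin.sum_univ_castSucc (n := k + 1) κ, Fin.sum_univ_castSucc (n := k + 1) e, ← max_self A]
      exact hB'

end Pool.Agent.Zk6.HM
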