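import Pool.Agent.Zk6.HM.C
import Pool.Agent.Zk2.HW.Cls
import Pool.Agent.Y773.HK.Eul

set_option autoImplicit false

/-!
# Hecke L-functions as completed L-functions of Hasse-Weil type

The algebra of the local polynomials is copied from `Pool/Agent/Zk3/GL/HWh.lean` (helper 3).
-/

open NumberField Complex Filter Topology Set Ideal
open scoped ComplexConjugate

namespace Pool.Agent.Zk6.HM

open Pool.Agent.Y773 (Ov zz LI)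
open Pool.Agent.Y772.DK (below norm_over deg_pos finite_dvd)
open Pool.Agent.N784.HC (IsHecke CTyp)
open Pool.Agent.Zk2.HW (IsHW)

section lp

variable {K : Type} [Field K] [NumberField K]

lemma re_sh' (i : ℕ) (s : ℂ) : (s - (i : ℂ) / 2 : ℂ).re = s.re - (i : ℝ) / 2 := by
  have : ((i : ℂ) / 2) = (((i : ℝ) / 2 : ℝ) : ℂ) := by push_cast; rfl
  rw [this, Complex.sub_re, Complex.ofReal_re]

lemma norm_half (i : ℕ) {N : ℕ} (hN : 0 < N) : ‖(N : ℂ) ^ ((i : ℂ) / 2)‖ = (N : ℝ) ^ ((i : ℝ) / 2) := by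
  rw [Complex.norm_natCast_cpow_of_pos hN]
  congr 1
  have : ((i : ℂ) / 2) = (((i : ℝ) / 2 : ℝ) : ℂ) := by push_cast; rfl
  rw [this, Complex.ofReal_re]

/-- the local polynomial at `p` of the representation induced from `ψ N^(i/2)` -/
noncomputable def lp (i : ℕ) (ψ : Ideal (𝓞 K) →*₀ ℂ) (p : ℕ) : Polynomial ℂ :=
  ∏ᶠ 𝔭 ∈ Ov K p, (1 - Polynomial.C (ψ 𝔭 * ((absNorm 𝔭 : ℕ) : ℂ) ^ ((i : ℂ) / 2)) *
    Polynomial.X ^ (𝔭.inertiaDeg ℤ))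

lemma Ov_finite {p : ℕ} (hp : p.Prime) : (Ov K p).Finite := by
  have h4 : Ov K p ⊆ {𝔭 | 𝔭 ∣ Ideal.span {((p : ℕ) : 𝓞 K)}} := by
    intro 𝔭 h𝔭
    rw [mem_ofPred_eq, Ideal.dvd_span_singleton]
    exact h𝔭.2
  refine (finite_dvd ?_).subset h4
  rw [Ne, Ideal.zero_eq_bot, Ideal.span_singleton_eq_bot]
  exact_mod_cast hp.ne_zero

lemma lp_eq (i : ℕ) (ψ : Ideal (𝓞 K) →*₀ ℂ) {p : ℕ} (hp : p.Prime) : lp i ψ p =
    ∏ 𝔭 ∈ (Ov_finite (K := K) hp).toFinset,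
      (1 - Polynomial.C (ψ 𝔭 * ((absNorm 𝔭 : ℕ) : ℂ) ^ ((i : ℂ) / 2)) * Polynomial.X ^ (𝔭.inertiaDeg ℤ)) := by
  unfold lp
  exact finprod_mem_eq_finite_toFinset_prod _ _

lemma Ov_data {p : ℕ} (hp : p.Prime) {𝔭 : Ideal (𝓞 K)} (h : 𝔭 ∈ Ov K p) :
    absNorm 𝔭 = p ^ 𝔭.inertiaDeg ℤ ∧ 𝔭.inertiaDeg ℤ ≠ 0 ∧ 𝔭 ∈ (span {(p : ℤ)}).primesOver (𝓞 K) := by
  have h1 := Pool.Agent.Y773.prime_of_Ov hp h
  have h2 := (Pool.Agent.Y773.Ov_iff hp h1).1 h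
  exact ⟨norm_over hp h2, deg_pos hp h1 h2, h2⟩

lemma lp_eval (i : ℕ) (ψ : Ideal (𝓞 K) →*₀ ℂ) {p : ℕ} (hp : p.Prime) (s : ℂ) :
    (lp i ψ p).eval ((p : ℂ) ^ (-s)) = ∏ᶠ 𝔭 ∈ Ov K p, (1 - zz ψ (s - (i : ℂ) / 2) 𝔭) := by
  rw [lp_eq i ψ hp, Polynomial.eval_prod, finprod_mem_eq_finite_toFinset_prod _ (Ov_finite hp)]
  refine Finset.prod_congr rfl fun 𝔭 h𝔭 => ?_
  rw [Set.Finite.mem_toFinset] at h𝔭
  obtain ⟨h1, h2, -⟩ := Ov_data hp h𝔭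
  have hN : ((absNorm 𝔭 : ℕ) : ℂ) ≠ 0 := by
    rw [h1]
    exact_mod_cast pow_ne_zero _ hp.ne_zero
  simp only [Polynomial.eval_sub, Polynomial.eval_one, Polynomial.eval_mul, Polynomial.eval_C,
    Polynomial.eval_pow, Polynomial.eval_X]
  have h3 : ((p : ℂ) ^ (-s)) ^ 𝔭.inertiaDeg ℤ = ((absNorm 𝔭 : ℕ) : ℂ) ^ (-s) := by
    rw [h1, Pool.Agent.Y773.natCast_pow_cpow]
  rw [h3]
  unfold zz
  rw [mul_assoc, ← Complex.cpow_add _ _ hN]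
  congr 3
  ring

lemma lp_zero (i : ℕ) (ψ : Ideal (𝓞 K) →*₀ ℂ) {p : ℕ} (hp : p.Prime) : (lp i ψ p).coeff 0 = 1 := by
  rw [Polynomial.coeff_zero_eq_eval_zero, lp_eq i ψ hp, Polynomial.eval_prod]
  refine Finset.prod_eq_one fun 𝔭 h𝔭 => ?_
  rw [Set.Finite.mem_toFinset] at h𝔭
  obtain ⟨h1, h2, -⟩ := Ov_data hp h𝔭
  simp [h2]

lemma lp_deg (i : ℕ) (ψ : Ideal (𝓞 K) →*₀ ℂ) {p : ℕ} (hp : p.Prime) :
    (lp i ψ p).natDegree ≤ Module.finrank ℚ K := by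
  classical
  rw [lp_eq i ψ hp]
  refine (Polynomial.natDegree_prod_le _ _).trans ?_
  have : Fact p.Prime := ⟨hp⟩
  have hmax : (span {(p : ℤ)}).IsMaximal := Int.ideal_span_isMaximal_of_prime p
  have hp0 : (span {(p : ℤ)}) ≠ ⊥ := by
    rw [Ne, span_singleton_eq_bot]
    exact_mod_cast hp.ne_zero
  have hfin : ((span {(p : ℤ)}).primesOver (𝓞 K)).Finite := IsDedekindDomain.primesOver_finite _ _
  have hft : Fintype ((span {(p : ℤ)}).primesOver (𝓞 K)) := hfin.fintype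
  have hsum := sum_ramification_inertia_eq_finrank (span {(p : ℤ)}) (𝓞 K)
  rw [RingOfIntegers.rank] at hsum
  rw [← hsum]
  have e4 : ∑ q : (span {(p : ℤ)}).primesOver (𝓞 K), q.1.ramificationIdx ℤ * q.1.inertiaDeg ℤ =
      ∑ P ∈ ((span {(p : ℤ)}).primesOver (𝓞 K)).toFinset, P.ramificationIdx ℤ * P.inertiaDeg ℤ :=
    Finset.sum_set_coe _ (f := fun P : Ideal (𝓞 K) => P.ramificationIdx ℤ * P.inertiaDeg ℤ)
  rw [e4]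
  have hsub : (Ov_finite (K := K) hp).toFinset ⊆ ((span {(p : ℤ)}).primesOver (𝓞 K)).toFinset := by
    intro 𝔭 h𝔭
    rw [Set.Finite.mem_toFinset] at h𝔭
    rw [Set.mem_toFinset]
    exact (Ov_data hp h𝔭).2.2
  refine (Finset.sum_le_sum fun P hP => ?_).trans (Finset.sum_le_sum_of_subset hsub)
  rw [Set.Finite.mem_toFinset] at hP
  obtain ⟨h1, h2, h3⟩ := Ov_data hp hP
  have h5 : P.IsPrime := h3.1
  have h8 : P.LiesOver (span {(p : ℤ)}) := h3.2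
  have h9 : NeZero P := ⟨(Pool.Agent.Y773.prime_of_Ov hp hP).ne_zero⟩
  have h6 : 1 ≤ P.ramificationIdx ℤ := ramificationIdx_pos P ℤ
  refine ((Polynomial.natDegree_sub_le _ _).trans ?_).trans (Nat.le_mul_of_pos_left _ h6)
  rw [Polynomial.natDegree_one]
  exact max_le (by omega) (Polynomial.natDegree_C_mul_X_pow_le _ _)

lemma lp_roots (i : ℕ) {ψ : Ideal (𝓞 K) →*₀ ℂ} (hψ : ∀ 𝔞, ‖ψ 𝔞‖ ≤ 1) {p : ℕ} (hp : p.Prime) {z : ℂ}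
    (hz : (lp i ψ p).eval z = 0) : (p : ℝ) ^ (-((i : ℝ) / 2)) ≤ ‖z‖ := by
  rw [lp_eq i ψ hp, Polynomial.eval_prod, Finset.prod_eq_zero_iff] at hz
  obtain ⟨𝔭, h𝔭, hz⟩ := hz
  rw [Set.Finite.mem_toFinset] at h𝔭
  obtain ⟨h1, h2, -⟩ := Ov_data hp h𝔭
  have hN : 0 < absNorm 𝔭 := by rw [h1]; exact pow_pos hp.pos _
  have hp0 : (0 : ℝ) < p := by exact_mod_cast hp.pos
  simp only [Polynomial.eval_sub, Polynomial.eval_one, Polynomial.eval_mul, Polynomial.eval_C,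
    Polynomial.eval_pow, Polynomial.eval_X] at hz
  have h3 : ‖ψ 𝔭‖ * ((absNorm 𝔭 : ℕ) : ℝ) ^ ((i : ℝ) / 2) * ‖z‖ ^ (𝔭.inertiaDeg ℤ) = 1 := by
    rw [← norm_half i hN, ← norm_pow, ← norm_mul, ← norm_mul, ← sub_eq_zero.1 hz, norm_one]
  by_contra hlt
  push Not at hlt
  have h4 : ‖z‖ ^ (𝔭.inertiaDeg ℤ) < ((p : ℝ) ^ (-((i : ℝ) / 2))) ^ (𝔭.inertiaDeg ℤ) :=
    pow_lt_pow_left₀ hlt (norm_nonneg _) h2
  have h5 : ((absNorm 𝔭 : ℕ) : ℝ) ^ ((i : ℝ) / 2) * ((p : ℝ) ^ (-((i : ℝ) / 2))) ^ (𝔭.inertiaDeg ℤ) = 1 := by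
    rw [h1, Nat.cast_pow, ← Real.rpow_natCast, ← Real.rpow_natCast, ← Real.rpow_mul hp0.le, ← Real.rpow_mul hp0.le,
      ← Real.rpow_add hp0]
    have : ((𝔭.inertiaDeg ℤ : ℕ) : ℝ) * ((i : ℝ) / 2) + -((i : ℝ) / 2) * ((𝔭.inertiaDeg ℤ : ℕ) : ℝ) = 0 := by ring
    rw [this, Real.rpow_zero]
  have h6 : 0 < ((absNorm 𝔭 : ℕ) : ℝ) ^ ((i : ℝ) / 2) := by
    have : (0 : ℝ) < ((absNorm 𝔭 : ℕ) : ℝ) := by exact_mod_cast hN
    positivity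
  have h7 : ‖ψ 𝔭‖ * ((absNorm 𝔭 : ℕ) : ℝ) ^ ((i : ℝ) / 2) * ‖z‖ ^ (𝔭.inertiaDeg ℤ) ≤
      ((absNorm 𝔭 : ℕ) : ℝ) ^ ((i : ℝ) / 2) * ‖z‖ ^ (𝔭.inertiaDeg ℤ) := by
    rw [mul_assoc]
    exact mul_le_of_le_one_left (by positivity) (hψ 𝔭)
  have h8 : ((absNorm 𝔭 : ℕ) : ℝ) ^ ((i : ℝ) / 2) * ‖z‖ ^ (𝔭.inertiaDeg ℤ) < 1 := by
    rw [← h5]
    exact mul_lt_mul_of_pos_left h4 h6
  linarith

end lp

lemma rpow_half_le {p : ℕ} (hp : p.Prime) (i : ℕ) : (p : ℝ) ^ (-(((i : ℝ) + 1) / 2)) ≤ (p : ℝ) ^ (-((i : ℝ) / 2)) :=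
  Real.rpow_le_rpow_of_exponent_le (by exact_mod_cast hp.one_lt.le) (by linarith)

/-- the growth of a shifted function of finite order -/
lemma order_shift {X : ℂ → ℂ} (h : ∃ A ρ : ℝ, ∀ s : ℂ, ‖X s‖ ≤ Real.exp (A * (1 + ‖s‖) ^ ρ)) (i : ℕ) :
    ∃ A ρ : ℝ, ∀ s : ℂ, ‖X (s - (i : ℂ) / 2)‖ ≤ Real.exp (A * (1 + ‖s‖) ^ ρ) := by
  obtain ⟨A, ρ, h⟩ := h
  refine ⟨|A| * (1 + (i : ℝ) / 2) ^ max ρ 0, max ρ 0, fun s => (h _).trans (Real.exp_le_exp.2 ?_)⟩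
  have hs := norm_nonneg s
  have hi : (0 : ℝ) ≤ (i : ℝ) / 2 := by positivity
  have h1 : 1 ≤ 1 + ‖s - (i : ℂ) / 2‖ := by linarith [norm_nonneg (s - (i : ℂ) / 2)]
  have h2 : 1 + ‖s - (i : ℂ) / 2‖ ≤ (1 + (i : ℝ) / 2) * (1 + ‖s‖) := by
    have h3 := norm_sub_le s ((i : ℂ) / 2)
    have h4 : ‖((i : ℂ) / 2)‖ = (i : ℝ) / 2 := by
      have : ((i : ℂ) / 2) = (((i : ℝ) / 2 : ℝ) : ℂ) := by push_cast; rfl
      rw [this, Complex.norm_real, Real.norm_of_nonneg hi]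
    rw [h4] at h3
    nlinarith
  calc A * (1 + ‖s - (i : ℂ) / 2‖) ^ ρ ≤ |A| * (1 + ‖s - (i : ℂ) / 2‖) ^ max ρ 0 :=
        mul_le_mul (le_abs_self _) (Real.rpow_le_rpow_of_exponent_le h1 (le_max_left _ _)) (by positivity)
          (abs_nonneg _)
    _ ≤ |A| * ((1 + (i : ℝ) / 2) * (1 + ‖s‖)) ^ max ρ 0 :=
        mul_le_mul_of_nonneg_left (Real.rpow_le_rpow (by linarith) h2 (le_max_right _ _)) (abs_nonneg _)
    _ = _ := by rw [Real.mul_rpow (by linarith) (by linarith)]; ring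

/-- the functional equation of a shifted function -/
lemma fe_shift {X : ℂ → ℂ} (h : ∃ ε : ℂ, ‖ε‖ = 1 ∧ ∀ s : ℂ, X s = ε * conj (X (1 - conj s))) (i : ℕ) :
    ∃ ε : ℂ, ‖ε‖ = 1 ∧ ∀ s : ℂ, X (s - (i : ℂ) / 2) = ε * conj (X ((i : ℂ) + 1 - conj s - (i : ℂ) / 2)) := by
  obtain ⟨ε, h1, h2⟩ := h
  refine ⟨ε, h1, fun s => ?_⟩
  rw [h2 (s - (i : ℂ) / 2)]
  congr 3
  simp only [map_sub, map_div₀, Complex.conj_natCast, map_ofNat]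
  ring

/-- **Hecke characters.** -/
theorem hecke_HW {K : Type} [Field K] [NumberField K] {n : (K →+* ℂ) → ℕ} (hn : CTyp n)
    {𝔣 : Ideal (𝓞 K)} {ψ : Ideal (𝓞 K) →*₀ ℂ} (htop : 𝔣 ≠ ⊤) (h : IsHecke K 𝔣 n ψ) :
    ∃ (μ : Fin (Module.finrank ℚ K) → ℝ) (X : ℂ → ℂ), (∀ j, μ j ≤ (∑ φ, (n φ : ℝ)) + 3) ∧ ∀ i : ℕ,
      IsHW i 1 0 (((Ideal.absNorm 𝔣 * Ideal.absNorm (differentIdeal ℤ (𝓞 K)) : ℕ) : ℝ)) μ (lp i ψ)
        (fun s => X (s - (i : ℂ) / 2)) := by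
  obtain ⟨hψ, a, X, ha, hraw⟩ := hecke_raw hn htop h
  refine ⟨a, X, fun j => (ha j).2, fun i => ?_⟩
  refine ⟨hraw.hm, Nat.zero_le _, hraw.hN, fun j => (ha j).1, fun p hp => lp_zero i ψ hp, fun p hp => lp_deg i ψ hp,
    fun p hp z hz => (rpow_half_le hp i).trans (lp_roots i hψ hp hz), fun p hp _ z hz => lp_roots i hψ hp hz,
    ?_, order_shift hraw.order i, fe_shift hraw.fe i, ?_⟩
  · exact hraw.entire.comp (by fun_prop)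
  · obtain ⟨σ, hσ⟩ := hraw.eq
    refine ⟨max σ 2 + (i : ℝ) / 2, fun s hs => ?_⟩
    have h1 : max σ 2 ≤ (s - (i : ℂ) / 2).re := by rw [re_sh']; linarith
    have h2 : 1 < (s - (i : ℂ) / 2).re := by linarith [(le_max_right σ 2).trans h1]
    refine ⟨LI ψ (s - (i : ℂ) / 2), ?_, ?_⟩
    · refine (Pool.Agent.Y773.hasProd_LI hψ h2).congr_fun fun p => ?_
      rw [lp_eval i ψ p.2]
    · rw [hσ _ ((le_max_left _ _).trans h1), lseries_bb hψ h2]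

/-- casting the index set -/
theorem cast_HW {i N : ℕ} {D D' : ℕ} {r : ℕ} {Q : ℝ} {μ : Fin D → ℝ} {P : ℕ → Polynomial ℂ} {Λ : ℂ → ℂ} {B : ℝ}
    (h : IsHW i N r Q μ P Λ) (hB : ∀ j, μ j ≤ B) (e : D = D') :
    ∃ μ' : Fin D' → ℝ, (∀ j, μ' j ≤ B) ∧ IsHW i N r Q μ' P Λ := by
  subst e
  exact ⟨μ, hB, h⟩

/-- **Finite products.** -/
theorem prod_HW (i : ℕ) (B : ℝ) : ∀ (m : ℕ) (D r : Fin (m + 1) → ℕ) (Q : Fin (m + 1) → ℝ)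
    (P : Fin (m + 1) → ℕ → Polynomial ℂ) (Λ : Fin (m + 1) → ℂ → ℂ),
    (∀ j, ∃ μ : Fin (D j) → ℝ, (∀ k, μ k ≤ B) ∧ IsHW i 1 (r j) (Q j) μ (P j) (Λ j)) →
    ∃ μ : Fin (∑ j, D j) → ℝ, (∀ k, μ k ≤ B) ∧
      IsHW i 1 (∑ j, r j) (∏ j, Q j) μ (fun p => ∏ j, P j p) (fun s => ∏ j, Λ j s) := by
  intro m
  induction m with
  | zero =>
    intro D r Q P Λ h
    obtain ⟨μ, h1, h2⟩ := h 0
    have h3 := cast_HW h2 h1 (D' := ∑ j, D j) (by simp)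
    simpa using h3
  | succ m ih =>
    intro D r Q P Λ h
    obtain ⟨μ, h1, h2⟩ := ih (fun j => D j.castSucc) (fun j => r j.castSucc) (fun j => Q j.castSucc)
      (fun j => P j.castSucc) (fun j => Λ j.castSucc) (fun j => h j.castSucc)
    obtain ⟨μ', h3, h4⟩ := h (Fin.last (m + 1))
    have h5 := h2.mul h4
    have h6 : ∀ j, Fin.append μ μ' j ≤ B := by
      intro j
      refine Fin.addCases (fun j => ?_) (fun j => ?_) j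
      · rw [Fin.append_left]; exact h1 j
      · rw [Fin.append_right]; exact h3 j
    obtain ⟨μ'', h7, h8⟩ := cast_HW h5 h6 (D' := ∑ j, D j) (Fin.sum_univ_castSucc (n := m + 1) D).symm
    refine ⟨μ'', h7, ?_⟩
    rw [Fin.sum_univ_castSucc (n := m + 1) r, Fin.prod_univ_castSucc (n := m + 1) Q]
    have e1 : (fun p => ∏ j, P j p) = fun p => (∏ j : Fin (m + 1), P j.castSucc p) * P (Fin.last (m + 1)) p :=
      funext fun p => Fin.prod_univ_castSucc (n := m + 1) (fun j => P j p)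
    have e2 : (fun s => ∏ j, Λ j s) = fun s => (∏ j : Fin (m + 1), Λ j.castSucc s) * Λ (Fin.last (m + 1)) s :=
      funext fun s => Fin.prod_univ_castSucc (n := m + 1) (fun j => Λ j s)
    rw [e1, e2]
    exact h8

end Pool.Agent.Zk6.HM
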