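import Pool.Agent.Zk6.HM.F
import Pool.Agent.W355.UN.Inst

set_option autoImplicit false

/-!
# Sums of Hecke characters and Tate twists as completed L-functions of Hasse-Weil type
-/

open NumberField Complex Filter Topology Set Ideal
open scoped ComplexConjugate

namespace Pool.Agent.Zk6.HM

open Pool.Agent.N784.HC (IsHecke CTyp)
open Pool.Agent.Zk2.HW (IsHW)

/-- **The Riemann zeta function** (Tate twists), with the factor `(s - i/2) (s - i/2 - 1)`. -/
theorem zeta_HW (i : ℕ) : IsHW i 1 1 1 (fun _ : Fin 1 => (0 : ℝ))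
    (fun p => 1 - Polynomial.C ((p : ℂ) ^ ((i : ℂ) / 2)) * Polynomial.X)
    (fun s => (s - (i : ℂ) / 2) * (s - (i : ℂ) / 2 - 1) * completedRiemannZeta₀ (s - (i : ℂ) / 2) + 1) := by
  have h := Pool.Agent.W355.UN.zeta_raw
  have hroot : ∀ p : ℕ, p.Prime → ∀ z : ℂ,
      (1 - Polynomial.C ((p : ℂ) ^ ((i : ℂ) / 2)) * Polynomial.X).eval z = 0 → (p : ℝ) ^ (-((i : ℝ) / 2)) ≤ ‖z‖ := by
    intro p hp z hz
    have hp0 : (0 : ℝ) < p := by exact_mod_cast hp.pos
    simp only [Polynomial.eval_sub, Polynomial.eval_one, Polynomial.eval_mul, Polynomial.eval_C,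
      Polynomial.eval_X] at hz
    have h1 : (p : ℂ) ^ ((i : ℂ) / 2) * z = 1 := (sub_eq_zero.1 hz).symm
    have h2 : (p : ℝ) ^ ((i : ℝ) / 2) * ‖z‖ = 1 := by
      rw [← norm_half i hp.pos, ← norm_mul, h1, norm_one]
    rw [Real.rpow_neg hp0.le]
    exact (eq_inv_of_mul_eq_one_right h2).ge
  refine ⟨le_rfl, le_rfl, le_rfl, fun _ => le_rfl, ?_, ?_, fun p hp z hz => (rpow_half_le hp i).trans (hroot p hp z hz),
    fun p hp _ z hz => hroot p hp z hz, ?_, ?_, ?_, ?_⟩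
  · intro p hp
    simp [Polynomial.coeff_one]
  · intro p hp
    refine (Polynomial.natDegree_sub_le _ _).trans ?_
    rw [Polynomial.natDegree_one]
    refine max_le (by norm_num) ?_
    exact (Polynomial.natDegree_C_mul_le _ _).trans Polynomial.natDegree_X_le
  · have h1 := h.entire
    exact h1.comp (g := fun s => s * (s - 1) * completedRiemannZeta₀ s + 1) (f := fun s : ℂ => s - (i : ℂ) / 2)
      (by fun_prop)
  · exact order_shift (X := fun s => s * (s - 1) * completedRiemannZeta₀ s + 1) h.order i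
  · exact fe_shift (X := fun s => s * (s - 1) * completedRiemannZeta₀ s + 1) h.fe i
  · obtain ⟨σ, hσ⟩ := h.eq
    refine ⟨max σ 2 + (i : ℝ) / 2, fun s hs => ?_⟩
    have h1 : max σ 2 ≤ (s - (i : ℂ) / 2).re := by rw [re_sh']; linarith
    have h2 : 1 < (s - (i : ℂ) / 2).re := by linarith [(le_max_right σ 2).trans h1]
    have h3 := riemannZeta_eulerProduct_hasProd (s := s - (i : ℂ) / 2) h2
    refine ⟨riemannZeta (s - (i : ℂ) / 2), ?_, ?_⟩
    · refine h3.congr_fun fun p => ?_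
      have hp0 : ((p : ℕ) : ℂ) ≠ 0 := by exact_mod_cast p.2.ne_zero
      simp only [Polynomial.eval_sub, Polynomial.eval_one, Polynomial.eval_mul, Polynomial.eval_C,
        Polynomial.eval_X]
      rw [← Complex.cpow_add _ _ hp0]
      congr 3
      ring
    · have h4 := hσ (s - (i : ℂ) / 2) ((le_max_left _ _).trans h1)
      have h5 : (∏ j : Fin ([0] : List ℂ).length, Gammaℝ (s - (i : ℂ) / 2 + ([0] : List ℂ).get j)) =
          ∏ j : Fin 1, Gammaℝ (s - (i : ℂ) / 2 + (((fun _ : Fin 1 => (0 : ℝ)) j : ℝ) : ℂ)) := by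
        rw [Pool.Agent.W355.UN.prod_get [0] (fun a : ℂ => Gammaℝ (s - (i : ℂ) / 2 + a))]
        simp
      rw [h5] at h4
      have h6 : LSeries (fun _ => (1 : ℂ)) (s - (i : ℂ) / 2) = riemannZeta (s - (i : ℂ) / 2) :=
        LSeries_one_eq_riemannZeta h2
      rw [h6] at h4
      exact h4

/-- **Finite products**, any number of factors. -/
theorem prod_HW' (i : ℕ) (B : ℝ) (m : ℕ) (hm : 1 ≤ m) (D r : Fin m → ℕ) (Q : Fin m → ℝ)
    (P : Fin m → ℕ → Polynomial ℂ) (Λ : Fin m → ℂ → ℂ)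
    (h : ∀ j, ∃ μ : Fin (D j) → ℝ, (∀ k, μ k ≤ B) ∧ IsHW i 1 (r j) (Q j) μ (P j) (Λ j)) :
    ∃ μ : Fin (∑ j, D j) → ℝ, (∀ k, μ k ≤ B) ∧
      IsHW i 1 (∑ j, r j) (∏ j, Q j) μ (fun p => ∏ j, P j p) (fun s => ∏ j, Λ j s) := by
  obtain ⟨k, rfl⟩ : ∃ k, m = k + 1 := ⟨m - 1, by omega⟩
  exact prod_HW i B k D r Q P Λ h

/-- **Sums of Hecke characters of number fields and of `t` Tate twists**, uniformly in the characters. -/
theorem sums_HW {m : ℕ} (K : Fin m → Type) [∀ j, Field (K j)] [∀ j, NumberField (K j)]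
    (n : ∀ j, (K j →+* ℂ) → ℕ) (hn : ∀ j, CTyp (n j)) (t : ℕ) (hm : 1 ≤ t + m) :
    ∃ B : ℝ, ∀ (𝔣 : ∀ j, Ideal (𝓞 (K j))) (ψ : ∀ j, Ideal (𝓞 (K j)) →*₀ ℂ),
      (∀ j, 𝔣 j ≠ ⊤ ∧ IsHecke (K j) (𝔣 j) (n j) (ψ j)) → ∀ i : ℕ,
      ∃ (μ : Fin (t + ∑ j, Module.finrank ℚ (K j)) → ℝ) (Λ : ℂ → ℂ), (∀ j, μ j ≤ B) ∧
        IsHW i 1 t (∏ j, ((Ideal.absNorm (𝔣 j) * Ideal.absNorm (differentIdeal ℤ (𝓞 (K j))) : ℕ) : ℝ)) μ
          (fun p => (1 - Polynomial.C ((p : ℂ) ^ ((i : ℂ) / 2)) * Polynomial.X) ^ t * ∏ j, lp i (ψ j) p) Λ := by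
  classical
  obtain ⟨B, hB⟩ : ∃ B : ℝ, B = ∑ j, ((∑ φ, (n j φ : ℝ)) + 3) := ⟨_, rfl⟩
  have hterm : ∀ j, 0 ≤ (∑ φ, (n j φ : ℝ)) + 3 := fun j => by positivity
  have hB0 : 0 ≤ B := by
    rw [hB]
    exact Finset.sum_nonneg fun j _ => hterm j
  have hBj : ∀ j, (∑ φ, (n j φ : ℝ)) + 3 ≤ B := fun j => by
    rw [hB]
    exact Finset.single_le_sum (f := fun j => (∑ φ, (n j φ : ℝ)) + 3) (fun j _ => hterm j) (Finset.mem_univ j)
  refine ⟨B, fun 𝔣 ψ hψ i => ?_⟩
  choose μ X hμ hX using fun j => hecke_HW (hn j) (hψ j).1 (hψ j).2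
  have key := prod_HW' i B (t + m) hm
    (Fin.append (fun _ : Fin t => 1) (fun j => Module.finrank ℚ (K j)))
    (Fin.append (fun _ : Fin t => 1) (fun _ => 0))
    (Fin.append (fun _ : Fin t => (1 : ℝ))
      (fun j => ((Ideal.absNorm (𝔣 j) * Ideal.absNorm (differentIdeal ℤ (𝓞 (K j))) : ℕ) : ℝ)))
    (Fin.append (fun _ : Fin t => fun p : ℕ => 1 - Polynomial.C ((p : ℂ) ^ ((i : ℂ) / 2)) * Polynomial.X)
      (fun j => lp i (ψ j)))
    (Fin.append (fun _ : Fin t => fun s : ℂ => (s - (i : ℂ) / 2) * (s - (i : ℂ) / 2 - 1) *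
        completedRiemannZeta₀ (s - (i : ℂ) / 2) + 1) (fun j => fun s => X j (s - (i : ℂ) / 2)))
    (fun j => by
      refine Fin.addCases (fun j => ?_) (fun j => ?_) j
      · have h1 := cast_HW (zeta_HW i) (B := B) (fun _ => hB0)
          (Fin.append_left (fun _ : Fin t => 1) (fun j => Module.finrank ℚ (K j)) j).symm
        simpa only [Fin.append_left] using h1
      · have h1 := cast_HW (hX j i) (B := B) (fun k => (hμ j k).trans (hBj j))
          (Fin.append_right (fun _ : Fin t => 1) (fun j => Module.finrank ℚ (K j)) j).symm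
        simpa only [Fin.append_right] using h1)
  obtain ⟨μ', h1, h2⟩ := key
  obtain ⟨μ'', h3, h4⟩ := cast_HW h2 h1 (D' := t + ∑ j, Module.finrank ℚ (K j)) (by
    rw [Fin.sum_univ_add]
    simp only [Fin.append_left, Fin.append_right, Finset.sum_const, Finset.card_univ, Fintype.card_fin,
      smul_eq_mul, mul_one])
  have e1 : ∑ j, Fin.append (fun _ : Fin t => 1) (fun _ : Fin m => 0) j = t := by
    rw [Fin.sum_univ_add]
    simp only [Fin.append_left, Fin.append_right, Finset.sum_const, Finset.card_univ, Fintype.card_fin,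
      smul_eq_mul, mul_one, mul_zero, add_zero]
  have e2 : ∏ j, Fin.append (fun _ : Fin t => (1 : ℝ))
      (fun j => ((Ideal.absNorm (𝔣 j) * Ideal.absNorm (differentIdeal ℤ (𝓞 (K j))) : ℕ) : ℝ)) j =
      ∏ j, ((Ideal.absNorm (𝔣 j) * Ideal.absNorm (differentIdeal ℤ (𝓞 (K j))) : ℕ) : ℝ) := by
    rw [Fin.prod_univ_add]
    simp only [Fin.append_left, Fin.append_right, Finset.prod_const_one, one_mul]
  have e3 : (fun p : ℕ => ∏ j, Fin.append (fun _ : Fin t => fun p : ℕ => 1 - Polynomial.C ((p : ℂ) ^ ((i : ℂ) / 2)) *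
      Polynomial.X) (fun j => lp i (ψ j)) j p) = fun p : ℕ => (1 - Polynomial.C ((p : ℂ) ^ ((i : ℂ) / 2)) *
        Polynomial.X) ^ t * ∏ j, lp i (ψ j) p := by
    funext p
    rw [Fin.prod_univ_add]
    simp only [Fin.append_left, Fin.append_right, Finset.prod_const, Finset.card_univ, Fintype.card_fin]
  rw [e1, e2, e3] at h4
  exact ⟨μ'', _, h3, h4⟩

end Pool.Agent.Zk6.HM
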