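import Pool.Agent.Zk6.HM.Mem
import Pool.Agent.Zk1.WM.Nf

/-!
# Products of arbitrary newforms, Hecke characters and Tate twists

The newforms (of all levels) vary; the constants depend on the weight and the infinity types only.
-/

set_option autoImplicit false

open Complex Filter Topology Set Polynomial NumberField CongruenceSubgroup UpperHalfPlane
open scoped ComplexConjugate MatrixGroups

namespace Pool.Agent.Zk6.HM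

open Pool.Agent.N784.HC (IsHecke CTyp)
open Pool.Agent.Zk2.HW (IsHW)

/-- The data of a newform (with a Tate twist) which contributes to the cohomology of degree `i`. -/
structure Nd (i : ℕ) where
  N : ℕ
  k : ℕ
  r : ℕ
  ψ : ℕ → ℂ
  f : CuspForm (Gamma1 N : Subgroup (GL (Fin 2) ℝ)) (k : ℤ)
  N_pos : 1 ≤ N
  k_pos : 1 ≤ k
  one : (qExpansion 1 f).coeff 1 = 1
  mul : ∀ m n : ℕ, Nat.Coprime m n →
    (qExpansion 1 f).coeff (m * n) = (qExpansion 1 f).coeff m * (qExpansion 1 f).coeff n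
  pow : ∀ p j : ℕ, p.Prime → (qExpansion 1 f).coeff (p ^ (j + 2)) =
    (qExpansion 1 f).coeff p * (qExpansion 1 f).coeff (p ^ (j + 1)) -
      ψ p * (p : ℂ) ^ ((k : ℤ) - 1) * (qExpansion 1 f).coeff (p ^ j)
  deligne : ∀ p : ℕ, p.Prime → ∀ z : ℂ, z ^ 2 - (qExpansion 1 f).coeff p * z + ψ p * (p : ℂ) ^ ((k : ℤ) - 1) = 0 →
    ‖z‖ ≤ (p : ℝ) ^ (((k : ℝ) - 1) / 2)
  fricke : ∃ η : ℂ, ‖η‖ = 1 ∧ ∀ τ τ' τc : ℍ, (τ' : ℂ) * ((N : ℂ) * (τ : ℂ)) = -1 →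
    (τc : ℂ) = -(starRingEnd ℂ) (τ : ℂ) →
    f τ' = η * (((Real.sqrt N : ℝ) : ℂ) * (τ : ℂ) / Complex.I) ^ (k : ℤ) * (starRingEnd ℂ) (f τc)
  weight : k + 2 * r = i + 1

/-- the local polynomial -/
noncomputable def Nd.P {i : ℕ} (π : Nd i) : ℕ → ℂ[X] :=
  Pool.Agent.Zk1.WM.nfP (fun n => (qExpansion 1 π.f).coeff n) π.ψ π.r i

lemma Nd.nf {i : ℕ} (π : Nd i) : ∃ w : ℂ, Pool.Agent.W355.LJ.IsNF π.N π.k π.f w := by
  obtain ⟨η, hη, hf⟩ := π.fricke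
  refine ⟨η * (Complex.I⁻¹) ^ π.k, π.one, ?_, fun τ τ' τ'' h1 h2 => ?_⟩
  · rw [norm_mul, norm_pow, norm_inv, Complex.norm_I, inv_one, one_pow, mul_one, hη]
  · rw [hf τ τ' τ'' h1 h2, zpow_natCast, div_eq_mul_inv, mul_pow]
    ring

lemma Nd.hw {i : ℕ} (π : Nd i) : ∃ (μ : Fin 2 → ℝ) (Λ : ℂ → ℂ), (∀ j, μ j ≤ ((i : ℝ) + 2) / 2) ∧
    IsHW i 1 0 (π.N : ℝ) μ π.P Λ := by
  haveI : NeZero π.N := ⟨Nat.one_le_iff_ne_zero.1 π.N_pos⟩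
  obtain ⟨w, hw⟩ := π.nf
  obtain ⟨μ, Λ, h1, h2⟩ := Pool.Agent.Zk1.WM.newf_HW π.k_pos π.f hw π.mul π.pow π.deligne π.weight
  refine ⟨μ, Λ, fun j => (h1 j).trans ?_, h2⟩
  have h3 : (π.k : ℝ) ≤ i + 1 := by
    have := π.weight
    exact_mod_cast (by omega : π.k ≤ i + 1)
  linarith

/-- **Products of arbitrary newforms of all levels, of Hecke L-functions of number fields, and of Tate twists.** -/
theorem members_nf {n m : ℕ} (i : ℕ) (K : Fin m → Type) [∀ j, Field (K j)] [∀ j, NumberField (K j)]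
    (ν : ∀ j, (K j →+* ℂ) → ℕ) (hν : ∀ j, CTyp (ν j)) (t : ℕ) (hpos : 1 ≤ n + t + m) :
    ∃ B : ℝ, ∀ (π : Fin n → Nd i) (𝔣 : ∀ j, Ideal (𝓞 (K j))) (ψ : ∀ j, Ideal (𝓞 (K j)) →*₀ ℂ),
      (∀ j, 𝔣 j ≠ ⊤ ∧ IsHecke (K j) (𝔣 j) (ν j) (ψ j)) →
      ∃ (μ : Fin (2 * n + (t + ∑ j, Module.finrank ℚ (K j))) → ℝ) (Λ : ℂ → ℂ), (∀ j, μ j ≤ B) ∧
        IsHW i 1 t
          ((∏ j, ((π j).N : ℝ)) * ∏ j, ((Ideal.absNorm (𝔣 j) * Ideal.absNorm (differentIdeal ℤ (𝓞 (K j))) : ℕ) : ℝ)) μ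
          (fun p => (∏ j, (π j).P p) *
            ((1 - Polynomial.C ((p : ℂ) ^ ((i : ℂ) / 2)) * Polynomial.X) ^ t * ∏ j, lp i (ψ j) p)) Λ := by
  obtain ⟨B, hB, h⟩ := members_gen (n := n) (((i : ℝ) + 2) / 2) K ν hν t hpos
  refine ⟨B, fun π 𝔣 ψ hψ => ?_⟩
  have h0 : ∀ j, ∃ (Λ : ℂ → ℂ) (μ : Fin 2 → ℝ), (∀ k, μ k ≤ ((i : ℝ) + 2) / 2) ∧
      IsHW i 1 0 ((π j).N : ℝ) μ (π j).P Λ := by
    intro j
    obtain ⟨μ, Λ, h1, h2⟩ := (π j).hw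
    exact ⟨Λ, μ, h1, h2⟩
  choose Λ hΛ using h0
  obtain ⟨μ, Λ', h1, h2⟩ := h i (fun _ => 2) (fun _ => 0) (fun j => ((π j).N : ℝ)) (fun j => (π j).P) Λ hΛ 𝔣 ψ hψ
  obtain ⟨μ', h3, h4⟩ := cast_HW h2 h1 (D' := 2 * n + (t + ∑ j, Module.finrank ℚ (K j)))
    (by rw [Finset.sum_const, Finset.card_univ, Fintype.card_fin, smul_eq_mul, mul_comm])
  refine ⟨μ', Λ', h3, ?_⟩
  have e : ∑ _j : Fin n, 0 + t = t := by simp
  rw [e] at h4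
  exact h4

end Pool.Agent.Zk6.HM
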